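import Pool.Agent.Lib.MP_f51cdd_lc.Seu.Logic

/-!
First-order definability in the atom structure of a relation algebra.
-/

namespace Pool.Agent.Lib.MP_f51cdd_lc.Seu

open RelAlg

variable {c : ℕ} {B : Type} [BooleanAlgebra B] [RelAlg B]

/-- The properties of assignments `v` that first-order formulas over the atom structure of `B`
express: atoms are allowed as parameters, the elements `g j` as unary predicates, and quantifiers
range over atoms. -/
inductive AtDef (g : Fin c → B) : ((ℕ → B) → Prop) → Prop
  | eq (i j : ℕ) : AtDef g fun v => v i = v j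
  | comp (i j k : ℕ) : AtDef g fun v => v k ≤ comp (v i) (v j)
  | conv (i j : ℕ) : AtDef g fun v => v j ≤ conv (v i)
  | ident (i : ℕ) : AtDef g fun v => v i ≤ ident
  | atom (i : ℕ) (a : B) : IsAtom a → AtDef g fun v => v i = a
  | pred (i : ℕ) (j : Fin c) : AtDef g fun v => v i ≤ g j
  | not {p} : AtDef g p → AtDef g fun v => ¬p v
  | or {p q} : AtDef g p → AtDef g q → AtDef g fun v => p v ∨ q v
  | ex (i : ℕ) {p} : AtDef g p → AtDef g fun v => ∃ x, IsAtom x ∧ p (Function.update v i x)

/-- The set of atoms below `b` is first-order definable. -/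
def Definable (g : Fin c → B) (b : B) : Prop :=
  ∃ p, AtDef g p ∧ ∀ x, IsAtom x → (x ≤ b ↔ p fun _ => x)

end Pool.Agent.Lib.MP_f51cdd_lc.Seu
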