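import Pool.Agent.Lib.MP_f51cdd_lc.Seu.Alg
import Pool.Agent.Lib.MP_f51cdd_lc.Seu.EqFix

/-!
Ultraproducts of relation algebras and of representations.
-/

namespace Pool.Agent.Lib.MP_f51cdd_lc.Seu

open Function RelAlg Filter

theorem isRRA_ultra {C ι : Type} [BooleanAlgebra C] [RelAlg C] (𝒰 : Ultrafilter ι) (A : ι → Type)
    [∀ i, BooleanAlgebra (A i)] [∀ i, RelAlg (A i)] (hA : ∀ i, IsRRA (A i)) (f : ∀ i, C → A i)
    (hinj : ∀ a b, a ≠ b → ∀ᶠ i in 𝒰, f i a ≠ f i b)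
    (hsup : ∀ a b, ∀ᶠ i in 𝒰, f i (a ⊔ b) = f i a ⊔ f i b)
    (hneg : ∀ a, ∀ᶠ i in 𝒰, f i aᶜ = (f i a)ᶜ)
    (hcomp : ∀ a b, ∀ᶠ i in 𝒰, f i (comp a b) = comp (f i a) (f i b))
    (hconv : ∀ a, ∀ᶠ i in 𝒰, f i (conv a) = conv (f i a))
    (hid : ∀ᶠ i in 𝒰, f i ident = ident) : IsRRA C := by
  classical
  choose U E g hE gi g0 g1 gs gc gm gv ge using hA
  have htop : ∀ᶠ i in 𝒰, f i ⊤ = ⊤ := by
    filter_upwards [hsup ⊥ ⊥ᶜ, hneg ⊥] with i h1 h2
    rwa [h2, sup_compl_eq_top, sup_compl_eq_top] at h1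
  have hbot : ∀ᶠ i in 𝒰, f i ⊥ = ⊥ := by
    filter_upwards [htop, hneg ⊤] with i h1 h2
    rwa [h1, compl_top, compl_top] at h2
  let r : Setoid (∀ i, Option (U i)) := (𝒰 : Filter ι).productSetoid _
  let P := {x : Quotient r // ∀ᶠ i in 𝒰, ∃ u, x.out i = some u}
  let R : C → ∀ i, Option (U i) → Option (U i) → Prop := fun c i x y =>
    ∃ u v, x = some u ∧ y = some v ∧ (u, v) ∈ g i (f i c)
  let h : C → SetRel P P := fun c => {p | ∀ᶠ i in 𝒰, R c i (p.1.1.out i) (p.2.1.out i)}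
  have mk : ∀ p : ∀ i, U i → Prop, (∀ᶠ i in 𝒰, ∃ u, p i u) →
      ∃ x : P, ∀ᶠ i in 𝒰, ∃ u, x.1.out i = some u ∧ p i u := fun p hp => by
    let y : ∀ i, Option (U i) := fun i => if h : ∃ u, p i u then some h.choose else none
    have : ∀ᶠ i in 𝒰, ∃ u, (Quotient.mk r y).out i = some u ∧ p i u := by
      filter_upwards [hp, (Quotient.mk_out y : ∀ᶠ i in 𝒰, (Quotient.mk r y).out i = y i)]
        with i h1 h2
      exact ⟨_, h2.trans (dif_pos h1), h1.choose_spec⟩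
    exact ⟨⟨_, this.mono fun _ h => h.imp fun _ h => h.1⟩, this⟩
  have key : ∀ (x y : P) (c : C) {q : ∀ i, U i × U i → Prop},
      (∀ᶠ i in 𝒰, ∀ w, w ∈ g i (f i c) ↔ q i w) → ((x, y) ∈ h c ↔
        ∀ᶠ i in 𝒰, ∀ u v, x.1.out i = some u → y.1.out i = some v → q i (u, v)) := by
    intro x y c q hq
    refine eventually_congr ?_
    filter_upwards [hq, x.2, y.2] with i h1 ⟨u, hu⟩ ⟨v, hv⟩
    simp [hu, hv, h1]
  have key' : ∀ (x y : P) (c : C), (x, y) ∈ h c ↔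
      ∀ᶠ i in 𝒰, ∀ u v, x.1.out i = some u → y.1.out i = some v → (u, v) ∈ g i (f i c) :=
    fun x y c => key x y c (.of_forall fun _ _ => Iff.rfl)
  have hT : ∀ x y : P, (x, y) ∈ h ⊤ ↔
      ∀ᶠ i in 𝒰, ∀ u v, x.1.out i = some u → y.1.out i = some v → (u, v) ∈ E i :=
    fun x y => key x y ⊤ (htop.mono fun i h w => by rw [h, g1])
  have sep : ∀ a b, (∀ᶠ i in 𝒰, ¬g i (f i a) ⊆ g i (f i b)) → ¬h a ⊆ h b := fun a b hab hs => by
    obtain ⟨x, hx⟩ := mk (fun i u => ∃ v, (u, v) ∈ g i (f i a) ∧ (u, v) ∉ g i (f i b))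
      (hab.mono fun i h => by
        obtain ⟨⟨u, v⟩, h⟩ := Set.not_subset.1 h
        exact ⟨u, v, h⟩)
    obtain ⟨y, hy⟩ := mk (fun i v => ∃ u, x.1.out i = some u ∧ (u, v) ∈ g i (f i a) ∧
      (u, v) ∉ g i (f i b)) (hx.mono fun i ⟨u, h, v, h'⟩ => ⟨v, u, h, h'⟩)
    have := (key' x y b).1 (hs (hy.mono fun i ⟨v, h, u, h'⟩ => ⟨u, v, h'.1, h, h'.2.1⟩))
    obtain ⟨i, ⟨v, h, u, h'⟩, h2⟩ := (hy.and this).exists
    exact h'.2.2 (h2 u v h'.1 h)
  refine ⟨P, h ⊤, h, ⟨fun x => ?_, fun {x y} hxy => ?_, fun {x y z} h1 h2 => ?_⟩, fun a b e => ?_,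
    ?_, rfl, fun a b => ?_, fun a => ?_, fun a b => ?_, fun a => ?_, ?_⟩
  · exact (hT x x).2 (.of_forall fun i u v h1 h2 => by
      rw [Option.some.inj (h1.symm.trans h2)]; exact (hE i).refl v)
  · exact (hT y x).2 (((hT x y).1 hxy).mono fun i h u v h1 h2 => (hE i).symm (h v u h2 h1))
  · refine (hT x z).2 ?_
    filter_upwards [(hT x y).1 h1, (hT y z).1 h2, y.2] with i k1 k2 ⟨w, hw⟩ u v e1 e2
    exact (hE i).trans (k1 u w e1 hw) (k2 w v hw e2)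
  · by_contra hne
    rcases Ultrafilter.eventually_or.1 ((hinj a b hne).mono fun i h =>
      not_and_or.1 fun k => h (gi i (Set.Subset.antisymm k.1 k.2))) with h | h
    exacts [sep a b h e.le, sep b a h e.ge]
  · refine Set.eq_empty_of_forall_notMem fun p hp => ?_
    obtain ⟨i, ⟨u, v, -, -, k⟩, h2⟩ := (Eventually.and hp hbot).exists
    rw [h2, g0] at k
    exact k
  · ext ⟨x, y⟩
    refine Iff.trans (eventually_congr ((hsup a b).mono fun i e => ?_)) Ultrafilter.eventually_or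
    simp only [e, gs, Set.mem_union, and_or_left, exists_or]
  · ext ⟨x, y⟩
    refine Iff.trans ?_ (eventually_and.trans (and_congr_right fun _ => Ultrafilter.eventually_not))
    refine eventually_congr ?_
    filter_upwards [hneg a, htop, x.2, y.2] with i e1 e2 ⟨u, hu⟩ ⟨v, hv⟩
    simp [e1, e2, gc, g1, hu, hv]
  · ext ⟨x, z⟩
    constructor
    · intro hp
      obtain ⟨y, hy⟩ := mk (fun i w => R a i (x.1.out i) (some w) ∧ R b i (some w) (z.1.out i)) (by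
        filter_upwards [hp, hcomp a b] with i ⟨u, v, h1, h2, k⟩ e
        rw [e, gm] at k
        obtain ⟨w, k1, k2⟩ := k
        exact ⟨w, ⟨u, w, h1, rfl, k1⟩, w, v, rfl, h2, k2⟩)
      exact ⟨y, hy.mono fun i ⟨_, e, k⟩ => e ▸ k.1, hy.mono fun i ⟨_, e, k⟩ => e ▸ k.2⟩
    · rintro ⟨y, h1, h2⟩
      filter_upwards [h1, h2, hcomp a b] with i ⟨u, v, e1, e2, k1⟩ ⟨v', w, e3, e4, k2⟩ e
      obtain rfl := Option.some.inj (e2.symm.trans e3)
      exact ⟨u, w, e1, e4, by rw [e, gm]; exact ⟨v, k1, k2⟩⟩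
  · ext ⟨x, y⟩
    refine eventually_congr ((hconv a).mono fun i e => ?_)
    simp only [e, gv]
    exact ⟨fun ⟨u, v, a, b, c⟩ => ⟨v, u, b, a, c⟩, fun ⟨u, v, a, b, c⟩ => ⟨v, u, b, a, c⟩⟩
  · ext ⟨x, y⟩
    rw [key x y ident (q := fun i w => w.1 = w.2) (hid.mono fun i e w => by rw [e, ge]; rfl)]
    refine ⟨fun k => Subtype.ext (Quotient.out_equiv_out.1 ?_), fun k => ?_⟩
    · filter_upwards [k, x.2, y.2] with i k ⟨u, hu⟩ ⟨v, hv⟩
      rw [hu, hv, k u v hu hv]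
    · obtain rfl : x = y := k
      exact .of_forall fun i u v h1 h2 => Option.some.inj (h1.symm.trans h2)

variable {ι : Type} (𝒰 : Ultrafilter ι) (A : ι → Type)

/-- The ultraproduct of a family of algebras. -/
def UP : Type := Quotient ((𝒰 : Filter ι).productSetoid A)

variable {𝒰 A}

/-- The class of a family. -/
def UP.mk (a : ∀ i, A i) : UP 𝒰 A := Quotient.mk _ a

theorem UP.mk_eq {a b : ∀ i, A i} : (UP.mk a : UP 𝒰 A) = UP.mk b ↔ ∀ᶠ i in 𝒰, a i = b i :=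
  Quotient.eq

theorem UP.surj : Surjective (UP.mk : _ → UP 𝒰 A) := Quotient.mk_surjective

/-- A unary operation on the ultraproduct. -/
def UP.op₁ (f : ∀ i, A i → A i) : UP 𝒰 A → UP 𝒰 A :=
  Quotient.map (fun a i => f i (a i)) fun _ _ h => Eventually.mono h fun i => congrArg (f i)

/-- A binary operation on the ultraproduct. -/
def UP.op₂ (f : ∀ i, A i → A i → A i) : UP 𝒰 A → UP 𝒰 A → UP 𝒰 A :=
  Quotient.map₂ (fun a b i => f i (a i) (b i)) fun _ _ h _ _ h' =>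
    (Eventually.and h h').mono fun i k => congrArg₂ (f i) k.1 k.2

variable [∀ i, BooleanAlgebra (A i)]

instance : BooleanAlgebra (UP 𝒰 A) where
  le := Quotient.lift₂ (fun a b => ∀ᶠ i in 𝒰, a i ≤ b i) fun _ _ _ _ h h' =>
    propext (eventually_congr ((Eventually.and h h').mono fun i k => by rw [k.1, k.2]))
  le_refl := by rintro ⟨a⟩; exact Eventually.of_forall fun _ => le_rfl
  le_trans := by
    rintro ⟨a⟩ ⟨b⟩ ⟨c⟩ h h'; exact (Eventually.and h h').mono fun _ k => k.1.trans k.2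
  le_antisymm := by
    rintro ⟨a⟩ ⟨b⟩ h h'
    exact Quotient.sound ((Eventually.and h h').mono fun _ k => k.1.antisymm k.2)
  sup := UP.op₂ fun _ => (· ⊔ ·)
  inf := UP.op₂ fun _ => (· ⊓ ·)
  compl := UP.op₁ fun _ => compl
  top := UP.mk fun _ => ⊤
  bot := UP.mk fun _ => ⊥
  le_sup_left := by rintro ⟨a⟩ ⟨b⟩; exact Eventually.of_forall fun _ => le_sup_left
  le_sup_right := by rintro ⟨a⟩ ⟨b⟩; exact Eventually.of_forall fun _ => le_sup_right
  sup_le := by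
    rintro ⟨a⟩ ⟨b⟩ ⟨c⟩ h h'; exact (Eventually.and h h').mono fun _ k => sup_le k.1 k.2
  inf_le_left := by rintro ⟨a⟩ ⟨b⟩; exact Eventually.of_forall fun _ => inf_le_left
  inf_le_right := by rintro ⟨a⟩ ⟨b⟩; exact Eventually.of_forall fun _ => inf_le_right
  le_inf := by
    rintro ⟨a⟩ ⟨b⟩ ⟨c⟩ h h'; exact (Eventually.and h h').mono fun _ k => le_inf k.1 k.2
  le_sup_inf := by rintro ⟨a⟩ ⟨b⟩ ⟨c⟩; exact Eventually.of_forall fun _ => le_sup_inf
  inf_compl_le_bot := by rintro ⟨a⟩; exact Eventually.of_forall fun _ => inf_compl_eq_bot.le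
  top_le_sup_compl := by rintro ⟨a⟩; exact Eventually.of_forall fun _ => sup_compl_eq_top.ge
  le_top := by rintro ⟨a⟩; exact Eventually.of_forall fun _ => le_top
  bot_le := by rintro ⟨a⟩; exact Eventually.of_forall fun _ => bot_le

theorem UP.mk_le {a b : ∀ i, A i} : (UP.mk a : UP 𝒰 A) ≤ UP.mk b ↔ ∀ᶠ i in 𝒰, a i ≤ b i :=
  Iff.rfl

theorem UP.mk_bot {a : ∀ i, A i} : (UP.mk a : UP 𝒰 A) = ⊥ ↔ ∀ᶠ i in 𝒰, a i = ⊥ := UP.mk_eq

theorem UP.isAtom {a : ∀ i, A i} (h : ∀ᶠ i in 𝒰, IsAtom (a i)) : IsAtom (UP.mk a : UP 𝒰 A) := by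
  refine ⟨fun e => ?_, fun b hb => ?_⟩
  · obtain ⟨i, h1, h2⟩ := (h.and (UP.mk_bot.1 e)).exists
    exact h1.1 h2
  · obtain ⟨b, rfl⟩ := UP.surj b
    refine UP.mk_bot.2 ?_
    filter_upwards [h, UP.mk_le.1 hb.le,
      Ultrafilter.eventually_not.2 (mt UP.mk_eq.2 hb.ne)] with i h1 h2 h3
    exact h1.2 _ (lt_of_le_of_ne h2 h3)

instance [∀ i, IsAtomic (A i)] : IsAtomic (UP 𝒰 A) := ⟨fun b => by
  obtain ⟨b, rfl⟩ := UP.surj b
  have : ∀ i, ∃ a, b i ≠ ⊥ → IsAtom a ∧ a ≤ b i := fun i =>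
    (eq_bot_or_exists_atom_le (b i)).elim (fun h => ⟨⊥, fun k => absurd h k⟩)
      fun h => h.imp fun _ h _ => h
  choose a ha using this
  refine or_iff_not_imp_left.2 fun h => ?_
  have := (Ultrafilter.eventually_not.2 (mt UP.mk_bot.2 h)).mono ha
  exact ⟨UP.mk a, UP.isAtom (this.mono fun _ => And.left), this.mono fun _ => And.right⟩⟩

variable [∀ i, RelAlg (A i)]

instance : RelAlg (UP 𝒰 A) where
  comp := UP.op₂ fun _ => comp
  conv := UP.op₁ fun _ => conv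
  ident := UP.mk fun _ => ident
  comp_assoc := by rintro ⟨a⟩ ⟨b⟩ ⟨c⟩; exact congrArg UP.mk (funext fun _ => comp_assoc _ _ _)
  sup_comp := by rintro ⟨a⟩ ⟨b⟩ ⟨c⟩; exact congrArg UP.mk (funext fun _ => sup_comp _ _ _)
  comp_ident := by rintro ⟨a⟩; exact congrArg UP.mk (funext fun _ => comp_ident _)
  conv_conv := by rintro ⟨a⟩; exact congrArg UP.mk (funext fun _ => conv_conv _)
  conv_sup := by rintro ⟨a⟩ ⟨b⟩; exact congrArg UP.mk (funext fun _ => conv_sup _ _)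
  conv_comp := by rintro ⟨a⟩ ⟨b⟩; exact congrArg UP.mk (funext fun _ => conv_comp _ _)
  tarski := by rintro ⟨a⟩ ⟨b⟩; exact congrArg UP.mk (funext fun _ => tarski _ _)

theorem UP.isRRA (hA : ∀ i, IsRRA (A i)) : IsRRA (UP 𝒰 A) := by
  obtain ⟨s, hs⟩ := (UP.surj (𝒰 := 𝒰) (A := A)).hasRightInverse
  refine isRRA_ultra 𝒰 A hA (fun i a => s a i)
    (fun a b h => Ultrafilter.eventually_not.2 (mt UP.mk_eq.2 (by rwa [hs, hs])))
    (fun a b => UP.mk_eq.1 ((hs _).trans ?_)) (fun a => UP.mk_eq.1 ((hs _).trans ?_))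
    (fun a b => UP.mk_eq.1 ((hs _).trans ?_)) (fun a => UP.mk_eq.1 ((hs _).trans ?_))
    (UP.mk_eq.1 (hs _))
  · exact (congrArg₂ (· ⊔ ·) (hs a) (hs b)).symm
  · exact (congrArg compl (hs a)).symm
  · exact (congrArg₂ RelAlg.comp (hs a) (hs b)).symm
  · exact (congrArg conv (hs a)).symm

theorem UP.eval {n : ℕ} (a : ∀ i, Fin n → A i) (t : Tm n) :
    t.eval (fun j => (UP.mk fun i => a i j : UP 𝒰 A)) = UP.mk fun i => t.eval (a i) := by
  induction t with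
  | var j => rfl
  | zero => rfl
  | one => rfl
  | ident => rfl
  | neg s h => rw [Tm.eval, h]; rfl
  | conv s h => rw [Tm.eval, h]; rfl
  | add s t h h' => rw [Tm.eval, h, h']; rfl
  | comp s t h h' => rw [Tm.eval, h, h']; rfl

end Pool.Agent.Lib.MP_f51cdd_lc.Seu
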