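import Pool.Agent.Lib.MP_f51cdd_lc.Seu.Fin2
import Pool.Agent.Lib.MP_f51cdd_lc.At.Ultra

/-!
A model of the `n`-variable theory of representable algebras has an ultrapower that cannot be
told from an ultraproduct of representable algebras in the `n`-pebble game.
-/

namespace Pool.Agent.Lib.MP_f51cdd_lc.Seu

open Function RelAlg Filter

variable {n : ℕ}

/-- The index set of the atomic tests. -/
abbrev AtI (n : ℕ) : Type := (Fin n → Bool) ⊕ (Fin n × Fin n × Fin n) ⊕ (Fin n × Fin n) ⊕ Fin n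

theorem exists_tests : ∃ t : AtI n → Tm n, ∀ (A B : Type) [BooleanAlgebra A] [RelAlg A]
    [BooleanAlgebra B] [RelAlg B] (α : Fin n → A) (β : Fin n → B),
      Atomic α β ↔ ∀ j, ((t j).eval α = ⊥ ↔ (t j).eval β = ⊥) := by
  choose pl hpl using fun s : Fin n → Bool => exists_pal s Finset.univ
  refine ⟨Sum.elim pl (Sum.elim (fun p => (Tm.comp (.var p.1) (.var p.2.1)).meet (.var p.2.2))
    (Sum.elim (fun p => (Tm.conv (.var p.1)).meet (.var p.2)) fun i => (Tm.var i).meet .ident)),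
    fun A B _ _ _ _ α β => ?_⟩
  simp only [Atomic, Sum.forall, Prod.forall, Sum.elim_inl, Sum.elim_inr, hpl, Tm.eval_meet,
    Tm.eval]

theorem exists_types (k : ℕ) : ∃ (J : Type) (_ : Finite J) (P : J → Pr n), (∀ j, Df (P j)) ∧
    ∀ (A B : Type) [BooleanAlgebra A] [RelAlg A] [BooleanAlgebra B] [RelAlg B] (α : Fin n → A)
      (β : Fin n → B), (∀ j, P j A α ↔ P j B β) → Sem k α B β := by
  obtain ⟨t, ht⟩ := exists_tests (n := n)
  induction k with
  | zero => exact ⟨AtI n, inferInstance, fun j _ _ _ β => (t j).eval β = ⊥, fun j => df_bot _,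
      fun A B _ _ _ _ α β h => (ht A B α β).2 h⟩
  | succ k ih =>
    obtain ⟨J, _, P, h1, h2⟩ := ih
    refine ⟨AtI n ⊕ Fin n × (J → Prop), inferInstance, Sum.elim (fun j _ _ _ β => (t j).eval β = ⊥)
      fun p B _ _ β => ∃ b, ∀ j, p.2 j ↔ P j B (update β p.1 b), ?_, fun A B _ _ _ _ α β h =>
        ⟨(ht A B α β).2 fun j => h (.inl j), fun i a => ?_, fun i b => ?_⟩⟩
    · rintro (j | p)
      exacts [df_bot _, (df_forall fun j => (df_const _).iff (h1 j)).ex p.1]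
    · exact ((h (.inr (i, fun j => P j A (update α i a)))).1 ⟨a, fun _ => Iff.rfl⟩).imp
        fun b hb => h2 A B _ _ hb
    · exact ((h (.inr (i, fun j => P j B (update β i b)))).2 ⟨b, fun _ => Iff.rfl⟩).imp
        fun a ha => h2 A B _ _ fun j => (ha j).symm

theorem exists_near {B : Type} [BooleanAlgebra B] [RelAlg B]
    (hB : ∀ φ : Fm n, φ.free = ∅ →
      (∀ (A : Type) [BooleanAlgebra A] [RelAlg A], IsRRA A → Models A φ) → Models B φ) (k : ℕ) :
    ∃ (A : Type) (_ : BooleanAlgebra A) (_ : RelAlg A) (α : Fin n → A), IsRRA A ∧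
      Sem k α B fun _ => ⊥ := by
  obtain ⟨J, _, P, h1, h2⟩ := exists_types (n := n) k
  obtain ⟨φ, hφ⟩ := (df_forall fun j => (h1 j).iff (df_const (P j B fun _ => ⊥))).not
  by_contra hc
  refine (hφ B fun _ => ⊥).1 ((sat_foldr _ _).1 (hB ((List.finRange n).foldr Fm.all φ)
    (Finset.eq_empty_of_forall_notMem fun i => free_foldr _ _ i (List.mem_finRange i))
    fun A _ _ hA => (sat_foldr _ _).2 fun α => (hφ A α).2 fun h => ?_) _) fun _ => Iff.rfl
  exact hc ⟨A, _, _, α, hA, h2 A B _ _ h⟩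

theorem sem_mono {A B : Type} [BooleanAlgebra A] [RelAlg A] [BooleanAlgebra B] [RelAlg B]
    {k l : ℕ} (h : k ≤ l) {α : Fin n → A} {β : Fin n → B} (hl : Sem l α B β) : Sem k α B β := by
  induction h with
  | refl => exact hl
  | step _ ih => exact ih (sem_succ _ _ _ hl)

theorem exists_rank {𝒰 : Filter ℕ} (h𝒰 : 𝒰 ≤ atTop) {p : ℕ → ℕ → Prop}
    (h : ∀ r, ∀ᶠ k in 𝒰, p r k) : ∃ g : ℕ → ℕ, ∀ r, ∀ᶠ k in 𝒰, r ≤ g k ∧ p (g k + 1) k := by
  classical
  refine ⟨fun k => Nat.findGreatest (fun r => p (r + 1) k) k, fun r => ?_⟩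
  filter_upwards [h (r + 1), h𝒰 (eventually_ge_atTop r)] with k h1 h2
  exact ⟨Nat.le_findGreatest h2 h1, Nat.findGreatest_spec (P := fun r => p (r + 1) k) h2 h1⟩

theorem peb_ultra {𝒰 : Ultrafilter ℕ} (h𝒰 : (𝒰 : Filter ℕ) ≤ atTop) {A B : ℕ → Type}
    [∀ k, BooleanAlgebra (A k)] [∀ k, RelAlg (A k)] [∀ k, BooleanAlgebra (B k)]
    [∀ k, RelAlg (B k)] (α : ∀ k, Fin n → A k) (β : ∀ k, Fin n → B k)
    (h : ∀ k, Sem k (α k) (B k) (β k)) : Peb n (UP 𝒰 A) (UP 𝒰 B) := by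
  obtain ⟨t, ht⟩ := exists_tests (n := n)
  have up : ∀ {C : ℕ → Type} (a : ∀ k, Fin n → C k) (i : Fin n) (c : ∀ k, C k),
      update (fun j => (UP.mk fun k => a k j : UP 𝒰 C)) i (UP.mk c) =
        fun j => UP.mk fun k => update (a k) i (c k) j := fun a i c => funext fun j => by
    by_cases e : j = i
    · subst e; simp only [update_self]
    · simp only [update_of_ne e]
  refine ⟨fun x y => ∃ (a : ∀ k, Fin n → A k) (b : ∀ k, Fin n → B k),
    (x = fun j => UP.mk fun k => a k j) ∧ (y = fun j => UP.mk fun k => b k j) ∧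
      ∀ r, ∀ᶠ k in 𝒰, Sem r (a k) (B k) (b k),
    ⟨_, _, α, β, rfl, rfl, fun r => ((eventually_ge_atTop r).filter_mono h𝒰).mono
      fun k hk => sem_mono hk (h k)⟩, ?_⟩
  rintro _ _ ⟨a, b, rfl, rfl, hs⟩
  obtain ⟨g, hg⟩ := exists_rank h𝒰 hs
  refine ⟨(ht _ _ _ _).2 fun j => ?_, fun i c => ?_, fun i d => ?_⟩
  · rw [UP.eval, UP.eval, UP.mk_bot, UP.mk_bot]
    exact eventually_congr ((hs 0).mono fun k hk => (ht _ _ _ _).1 hk j)
  · obtain ⟨c, rfl⟩ := UP.surj c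
    have : ∀ k, ∃ d, Sem (g k + 1) (a k) (B k) (b k) →
        Sem (g k) (update (a k) i (c k)) (B k) (update (b k) i d) := fun k =>
      (em _).elim (fun h : Sem (g k + 1) (a k) (B k) (b k) => (h.2.1 i (c k)).imp fun _ h _ => h)
        fun h => ⟨⊥, fun h' => absurd h' h⟩
    choose d hd using this
    exact ⟨UP.mk d, _, _, up a i c, up b i d,
      fun r => (hg r).mono fun k hk => sem_mono hk.1 (hd k hk.2)⟩
  · obtain ⟨d, rfl⟩ := UP.surj d
    have : ∀ k, ∃ c, Sem (g k + 1) (a k) (B k) (b k) →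
        Sem (g k) (update (a k) i c) (B k) (update (b k) i (d k)) := fun k =>
      (em _).elim (fun h : Sem (g k + 1) (a k) (B k) (b k) => (h.2.2 i (d k)).imp fun _ h _ => h)
        fun h => ⟨⊥, fun h' => absurd h' h⟩
    choose c hc using this
    exact ⟨UP.mk c, _, _, up a i c, up b i d,
      fun r => (hg r).mono fun k hk => sem_mono hk.1 (hc k hk.2)⟩

theorem Peb.isAtomic {A B : Type} [BooleanAlgebra A] [RelAlg A] [BooleanAlgebra B] [RelAlg B]
    [IsAtomic B] (hn : 3 ≤ n) (h : Peb n A B) : IsAtomic A := ⟨fun a => by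
  obtain ⟨P, ⟨α, β, h₀⟩, hP⟩ := h
  obtain ⟨j, k, hji, -, hjk⟩ := finB_idx hn ⟨0, by omega⟩
  set i : Fin n := ⟨0, by omega⟩
  obtain ⟨b, h₁⟩ := (hP _ _ h₀).2.1 i a
  rcases eq_bot_or_exists_atom_le b with rfl | ⟨y, hy, hyb⟩
  · simpa using Or.inl (finB_bot _ _ (fun s => ((hP _ _ h₁).1.1 s).2) i (update_self _ _ _))
  obtain ⟨x, h₂⟩ := (hP _ _ h₁).2.2 j y
  have hA := (hP _ _ h₂).1.1
  have e1 := finB_le _ _ (fun s => (hA s).2) j i i
  have e2 := finB_bot _ _ (fun s => (hA s).1) j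
  simp only [update_self, update_of_ne hji.symm, sup_idem] at e1 e2
  refine Or.inr ⟨x, ⟨fun e => hy.1 (e2 e), fun z hz => ?_⟩, e1 hyb⟩
  obtain ⟨w, h₃⟩ := (hP _ _ h₂).2.1 k z
  have hA := (hP _ _ h₃).1.1
  have e3 := finB_le _ _ (fun s => (hA s).1) k j j
  have e4 := finB_le _ _ (fun s => (hA s).2) j k k
  have e5 := finB_bot _ _ (fun s => (hA s).2) k
  simp only [update_self, update_of_ne hjk, sup_idem] at e3 e4 e5
  exact (hy.le_iff.1 (e3 hz.le)).elim e5 fun e => absurd (e4 e.ge) hz.not_ge⟩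

end Pool.Agent.Lib.MP_f51cdd_lc.Seu
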