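import Pool.Agent.Lib.MP_f51cdd_lc.At.Weak
import Pool.Agent.Lib.MP_f51cdd_lc.At.Types

/-!
The pebble game on atomic relation algebras gives a back-and-forth system between their atom
structures.
-/

namespace Pool.Agent.Lib.MP_f51cdd_lc.Seu

open Function RelAlg

/-- The atoms. -/
abbrev Atm (A : Type) [BooleanAlgebra A] : Type := {x : A // IsAtom x}

variable {A B : Type} [BooleanAlgebra A] [BooleanAlgebra B]

/-- The atoms below an element. -/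
def lo (a : A) : Set (Atm A) := {x | x.1 ≤ a}

theorem at_le_compl {z a : A} (hz : IsAtom z) : z ≤ aᶜ ↔ ¬z ≤ a := by
  rw [hz.not_le_iff_disjoint, le_compl_iff_disjoint_right]

theorem at_le_sup {z a b : A} (hz : IsAtom z) : z ≤ a ⊔ b ↔ z ≤ a ∨ z ≤ b :=
  ⟨alg_le_sup hz, fun h => h.elim le_sup_of_le_left le_sup_of_le_right⟩

theorem at_le_at (x y : Atm A) : x.1 ≤ y.1 ↔ x = y :=
  (y.2.le_iff_eq x.2.1).trans Subtype.ext_iff.symm

theorem lo_fin {S : Set (Atm A)} (hS : S.Finite) : ∃ a, lo a = S := by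
  induction S, hS using Set.Finite.induction_on with
  | empty => exact ⟨⊥, Set.eq_empty_of_forall_notMem fun x hx => x.2.1 (le_bot_iff.mp hx)⟩
  | @insert y S _ _ ih =>
    obtain ⟨a, rfl⟩ := ih
    exact ⟨y.1 ⊔ a, Set.ext fun x => (at_le_sup x.2).trans (or_congr_left (at_le_at x y))⟩

theorem lo_near (a : A) (S : Set (Atm A)) (h : {x | ¬(x ∈ S ↔ x ∈ lo a)}.Finite) :
    ∃ a', lo a' = S := by
  obtain ⟨d, hd⟩ := lo_fin h
  refine ⟨a ⊓ dᶜ ⊔ aᶜ ⊓ d, Set.ext fun x => ?_⟩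
  have : x.1 ≤ d ↔ ¬(x ∈ S ↔ x.1 ≤ a) := Set.ext_iff.1 hd x
  change x.1 ≤ _ ↔ _
  rw [at_le_sup x.2, le_inf_iff, le_inf_iff, at_le_compl x.2, at_le_compl x.2, this]
  tauto

theorem lo_inj [IsAtomic A] {a b : A} (h : lo a = lo b) : a = b :=
  BooleanAlgebra.eq_iff_atom_le_iff.2 fun x hx => Set.ext_iff.1 h ⟨x, hx⟩

theorem lo_single [IsAtomic A] {a : A} {x : Atm A} (h : {x} = lo a) : a = x.1 :=
  lo_inj (h.symm.trans (Set.ext fun y => (at_le_at y x).symm))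

theorem at_pal [IsAtomic B] {n : ℕ} {α : Fin n → A} {β : Fin n → B}
    (h : ∀ s : Fin n → Bool, (Finset.univ.inf fun i => if s i then β i else (β i)ᶜ) = ⊥ →
      (Finset.univ.inf fun i => if s i then α i else (α i)ᶜ) = ⊥) (x : Atm A) :
    ∃ y : Atm B, ∀ i, x.1 ≤ α i ↔ y.1 ≤ β i := by
  classical
  have h1 : x.1 ≤ Finset.univ.inf fun i => if decide (x.1 ≤ α i) then α i else (α i)ᶜ := by
    refine Finset.le_inf fun i _ => ?_
    by_cases hi : x.1 ≤ α i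
    · simp [hi]
    · simpa [hi] using (at_le_compl x.2).2 hi
  rcases eq_bot_or_exists_atom_le
    (Finset.univ.inf fun i => if decide (x.1 ≤ α i) then β i else (β i)ᶜ) with h2 | ⟨y, hy, h2⟩
  · rw [h _ h2, le_bot_iff] at h1
    exact absurd h1 x.2.1
  · refine ⟨⟨y, hy⟩, fun i => ?_⟩
    have h3 := Finset.le_inf_iff.mp h2 i (Finset.mem_univ i)
    by_cases hi : x.1 ≤ α i
    · simpa [hi] using h3
    · exact iff_of_false hi ((at_le_compl hy).1 (by simpa [hi] using h3))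

variable [RelAlg A] [RelAlg B] [IsAtomic A] [IsAtomic B]

theorem Peb.wb {n : ℕ} (h : Peb n A B) : ∃ S : WB n (Atm A) (Atm B),
    (∀ p, S.R p → ∃ α β : Fin n → _, Atomic α β ∧ ∀ z ∈ p, ∃ i, z = (lo (α i), lo (β i))) ∧
      ∀ p, S.R p → p.length < n → ∀ b, ∃ a, S.R ((lo a, lo b) :: p) := by
  classical
  obtain ⟨P, ⟨α₀, β₀, h₀⟩, hP⟩ := h
  let R : List (Set (Atm A) × Set (Atm B)) → Prop := fun p => ∃ α β, P α β ∧
    ∃ I : Finset (Fin n), I.card ≤ p.length ∧ ∀ z ∈ p, ∃ i ∈ I, z = (lo (α i), lo (β i))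
  have step : ∀ p, R p → p.length < n → ∃ α β i, P α β ∧
      ∀ a b, P (update α i a) (update β i b) → R ((lo a, lo b) :: p) := by
    rintro p ⟨α, β, h, I, hc, hI⟩ hl
    obtain ⟨i, -, hi⟩ := Finset.exists_mem_notMem_of_card_lt_card (s := I) (t := Finset.univ)
      (by simpa using hc.trans_lt hl)
    refine ⟨α, β, i, h, fun a b hab => ⟨_, _, hab, insert i I,
      (Finset.card_insert_le _ _).trans (by simpa using hc), ?_⟩⟩
    have := pos_step (α := lo ∘ α) (β := lo ∘ β) hi hI (lo a) (lo b)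
    rwa [← comp_update, ← comp_update] at this
  have bk : ∀ p, R p → p.length < n → ∀ b, ∃ a, R ((lo a, lo b) :: p) := fun p hp hl b => by
    obtain ⟨α, β, i, h, k⟩ := step p hp hl
    exact ((hP α β h).2.2 i b).imp fun a => k a b
  refine ⟨⟨R, ⟨α₀, β₀, h₀, ∅, le_rfl, by simp⟩, ?_, fun hp hl S hS => ?_, fun hp hl T hT => ?_,
    ?_, ?_⟩, ?_, bk⟩
  · rintro p q ⟨α, β, h, I, -, hI⟩ hq
    choose f f1 f2 using fun z : {z // z ∈ q} => hI z (hq z z.2)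
    refine ⟨α, β, h, (q.attach.map f).toFinset, (List.toFinset_card_le _).trans (by simp),
      fun z hz => ⟨f ⟨z, hz⟩, List.mem_toFinset.2 (List.mem_map_of_mem (List.mem_attach _ _)),
        f2 ⟨z, hz⟩⟩⟩
  · obtain ⟨a, rfl⟩ := lo_fin hS
    obtain ⟨α, β, i, h, k⟩ := step _ hp hl
    obtain ⟨b, hb⟩ := (hP α β h).2.1 i a
    exact ⟨_, k a b hb⟩
  · obtain ⟨b, rfl⟩ := lo_fin hT
    obtain ⟨a, ha⟩ := bk _ hp hl b
    exact ⟨_, ha⟩
  · rintro p ⟨α, β, h, I, -, hI⟩ x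
    obtain ⟨y, hy⟩ := at_pal (fun s => ((hP α β h).1.1 s).2) x
    refine ⟨y, fun z hz => ?_⟩
    obtain ⟨i, -, rfl⟩ := hI z hz
    exact hy i
  · rintro p ⟨α, β, h, I, -, hI⟩ y
    obtain ⟨x, hx⟩ := at_pal (fun s => ((hP α β h).1.1 s).1) y
    refine ⟨x, fun z hz => ?_⟩
    obtain ⟨i, -, rfl⟩ := hI z hz
    exact (hx i).symm
  · rintro p ⟨α, β, h, I, -, hI⟩
    exact ⟨α, β, (hP α β h).1, fun z hz => let ⟨i, _, hi⟩ := hI z hz; ⟨i, hi⟩⟩

/-- A back-and-forth system between two atom structures with `c` named sets. -/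
structure AI {c : ℕ} (f : Fin c → A) (g : Fin c → B) (G : List (Atm A × Atm B) → Prop) :
    Prop where
  nil : G []
  forth : ∀ {l}, G l → ∀ x, ∃ y, G ((x, y) :: l)
  back : ∀ {l}, G l → ∀ y, ∃ x, G ((x, y) :: l)
  eq : ∀ {l}, G l → ∀ {u v}, u ∈ l → v ∈ l → (u.1 = v.1 ↔ u.2 = v.2)
  comp : ∀ {l}, G l → ∀ {u v w}, u ∈ l → v ∈ l → w ∈ l →
    (w.1.1 ≤ comp u.1.1 v.1.1 ↔ w.2.1 ≤ comp u.2.1 v.2.1)
  conv : ∀ {l}, G l → ∀ {u v}, u ∈ l → v ∈ l → (v.1.1 ≤ conv u.1.1 ↔ v.2.1 ≤ conv u.2.1)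
  ident : ∀ {l}, G l → ∀ {u}, u ∈ l → (u.1.1 ≤ ident ↔ u.2.1 ≤ ident)
  pred : ∀ {l}, G l → ∀ {u}, u ∈ l → ∀ j, (u.1.1 ≤ f j ↔ u.2.1 ≤ g j)
  hold : ∀ {l}, G l → ∀ b, ∃ a, ∀ x, ∃ y, G ((x, y) :: l) ∧ (x.1 ≤ a ↔ y.1 ≤ b)

theorem exists_ai (c : ℕ) : ∃ n, 3 ≤ n ∧ ∀ (A B : Type) [BooleanAlgebra A] [BooleanAlgebra B]
    [RelAlg A] [RelAlg B] [IsAtomic A] [IsAtomic B], Peb n A B → ∀ g : Fin c → B,
      ∃ (f : Fin c → A) (G : List (Atm A × Atm B) → Prop), AI f g G := by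
  obtain ⟨C, hC⟩ := exists_pi
  refine ⟨C + c + 3, by omega, fun A B _ _ _ _ _ _ h g => ?_⟩
  obtain ⟨S, s1, s2⟩ := h.wb
  have hl : ∀ l : List B, l.length ≤ c → ∃ p, S.R p ∧ p.length = l.length ∧
      ∀ b ∈ l, ∃ a, (lo a, lo b) ∈ p := fun l => by
    induction l with
    | nil => exact fun _ => ⟨[], S.nil, rfl, by simp⟩
    | cons b l ih =>
      intro k
      simp only [List.length_cons] at k
      obtain ⟨p, p1, p2, p3⟩ := ih (by omega)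
      obtain ⟨a, ha⟩ := s2 p p1 (by omega) b
      exact ⟨_, ha, by simp [p2], List.forall_mem_cons.2 ⟨⟨a, List.mem_cons_self⟩,
        fun b hb => (p3 b hb).imp fun _ => List.mem_cons_of_mem _⟩⟩
  obtain ⟨p₀, p1, p2, p3⟩ := hl (List.ofFn g) (by simp)
  choose f hf using fun j => p3 (g j) (List.mem_ofFn.2 ⟨j, rfl⟩)
  rw [List.length_ofFn] at p2
  obtain ⟨G, hG⟩ := hC _ _ _ (Prop × Prop × Prop × Prop × (Fin c → Prop)) (S.shift p₀ p1)
    (fun x => (comp (x 0).1 (x 1).1 ⊓ (x 2).1 = ⊥, conv (x 0).1 ⊓ (x 1).1 = ⊥,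
      (x 0).1 ⊓ ident = ⊥, x 0 = x 1, fun j => (x 0).1 ≤ f j))
    (fun x => (comp (x 0).1 (x 1).1 ⊓ (x 2).1 = ⊥, conv (x 0).1 ⊓ (x 1).1 = ⊥,
      (x 0).1 ⊓ ident = ⊥, x 0 = x 1, fun j => (x 0).1 ≤ g j)) (Set.range lo) (Set.range lo)
    (by omega) (fun p hp x y hxy => by
      obtain ⟨α, β, ⟨-, h1, h2, h3⟩, hz⟩ := s1 _ hp
      have key : ∀ i, ∃ j, α j = (x i).1 ∧ β j = (y i).1 := fun i => by
        obtain ⟨j, hj⟩ := hz _ (List.mem_append_left _ (hxy i))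
        exact ⟨j, lo_single (Prod.mk.inj hj).1, lo_single (Prod.mk.inj hj).2⟩
      choose j ha hb using key
      have e1 := h1 (j 0) (j 1) (j 2)
      have e2 := h2 (j 0) (j 1)
      have e3 := h3 (j 0)
      simp only [ha, hb] at e1 e2 e3
      have e4 := fun z => S.mem_iff hp (List.mem_append_left _ (hxy 0)) (z := z)
      exact Prod.ext (propext e1) (Prod.ext (propext e2) (Prod.ext (propext e3) (Prod.ext
        (propext (e4 _ (List.mem_append_left _ (hxy 1))))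
        (funext fun j => propext (e4 _ (List.mem_append_right _ (hf j))))))))
    (by
      rintro p hp hl _ ⟨b, rfl⟩
      obtain ⟨a, ha⟩ := s2 _ hp (by simp; omega) b
      exact ⟨_, ⟨a, rfl⟩, ha⟩) (by
      rintro _ ⟨a, rfl⟩ S hS
      exact lo_near a S hS)
  have col := fun {l} (hl : G l) {u v w : Atm A × Atm B} (hu : u ∈ l) (hv : v ∈ l) (hw : w ∈ l) =>
    hG.col hl ![u.1, v.1, w.1] ![u.2, v.2, w.2] fun i => by fin_cases i <;> assumption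
  refine ⟨f, G, hG.nil, hG.forth, hG.back,
    fun hl u v hu hv => iff_of_eq (congrArg (·.2.2.2.1) (col hl hu hv hv)),
    fun hl u v w hu hv hw => ?_, fun hl u v hu hv => ?_, fun hl u hu => ?_,
    fun hl u hu j => iff_of_eq (congrArg (·.2.2.2.2 j) (col hl hu hu hu)), fun hl b => ?_⟩
  · rw [alg_le_iff w.1.2, alg_le_iff w.2.2]
    exact not_congr (iff_of_eq (congrArg (·.1) (col hl hu hv hw)))
  · rw [alg_le_iff v.1.2, alg_le_iff v.2.2]
    exact not_congr (iff_of_eq (congrArg (·.2.1) (col hl hu hv hv)))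
  · rw [alg_le_iff u.1.2, alg_le_iff u.2.2, inf_comm, inf_comm ident]
    exact not_congr (iff_of_eq (congrArg (·.2.2.1) (col hl hu hu hu)))
  · obtain ⟨_, ⟨a, rfl⟩, ha⟩ := hG.hold hl _ ⟨b, rfl⟩
    exact ⟨a, ha⟩

end Pool.Agent.Lib.MP_f51cdd_lc.Seu
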