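import Pool.Agent.Lib.MP_f51cdd_lc.At.Atoms
import Pool.Agent.Lib.MP_f51cdd_lc.At.ADefs

/-!
Definable elements are carried along a back-and-forth system between atom structures.
-/

namespace Pool.Agent.Lib.MP_f51cdd_lc.Seu

open Function RelAlg Filter

variable {A B : Type} [BooleanAlgebra A] [BooleanAlgebra B] [RelAlg A] [RelAlg B]

/-- Converse as an order automorphism. -/
def convIso (A : Type) [BooleanAlgebra A] [RelAlg A] : A ≃o A :=
  have : Monotone (conv : A → A) := fun a b h => by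
    rw [← sup_eq_right.2 h, conv_sup]; exact le_sup_left
  (Involutive.toPerm conv conv_conv).toOrderIso this this

theorem comp_mono {a a' b b' : A} (h : a ≤ a') (h' : b ≤ b') : comp a b ≤ comp a' b' := by
  rw [← sup_eq_right.2 h, ← sup_eq_right.2 h', sup_comp, alg_comp_sup]
  exact le_sup_left.trans le_sup_left

theorem tri {a b c : A} (h : comp a b ⊓ c = ⊥) : comp (conv a) c ⊓ b = ⊥ :=
  disjoint_iff.1 (le_compl_iff_disjoint_right.1 ((comp_mono le_rfl
    (disjoint_iff.2 h).symm.le_compl_right).trans (sup_eq_right.1 (tarski a b))))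

theorem at_conv {z a : A} (hz : IsAtom z) : z ≤ conv a ↔ ∃ x : Atm A, x.1 ≤ a ∧ z ≤ conv x.1 :=
  ⟨fun h => ⟨⟨conv z, ((convIso A).isAtom_iff z).2 hz⟩,
    ((convIso A).monotone h).trans (conv_conv a).le, (conv_conv z).ge⟩,
    fun ⟨_, h, h'⟩ => h'.trans ((convIso A).monotone h)⟩

theorem at_right [IsAtomic A] {z a b : A} (hz : IsAtom z) (h : z ≤ comp a b) :
    ∃ y : Atm A, y.1 ≤ b ∧ z ≤ comp a y.1 := by
  rcases eq_bot_or_exists_atom_le (comp (conv a) z ⊓ b) with e | ⟨y, hy, e⟩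
  · exact absurd (by simpa [conv_conv] using tri e) ((alg_le_iff hz).1 h)
  · exact ⟨⟨y, hy⟩, e.trans inf_le_right, (alg_le_iff hz).2 fun k =>
      (alg_le_iff hy).1 (e.trans inf_le_left) (tri k)⟩

theorem at_comp [IsAtomic A] {z a b : A} (hz : IsAtom z) :
    z ≤ comp a b ↔ ∃ x y : Atm A, x.1 ≤ a ∧ y.1 ≤ b ∧ z ≤ comp x.1 y.1 := by
  refine ⟨fun h => ?_, fun ⟨_, _, h1, h2, h⟩ => h.trans (comp_mono h1 h2)⟩
  obtain ⟨y, hy, h⟩ := at_right hz h
  obtain ⟨x, hx, h⟩ := at_right (((convIso A).isAtom_iff z).2 hz)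
    (((convIso A).monotone h).trans (conv_comp a y.1).le)
  refine ⟨⟨conv x.1, ((convIso A).isAtom_iff _).2 x.2⟩, y,
    ((convIso A).monotone hx).trans (conv_conv a).le, hy, ?_⟩
  have : conv (conv z) ≤ conv (comp (conv y.1) x.1) := (convIso A).monotone h
  rwa [conv_conv, conv_comp, conv_conv] at this

variable {c : ℕ} {f : Fin c → A} {g : Fin c → B} {G : List (Atm A × Atm B) → Prop}

theorem AI.inv (h : AI f g G) {p : (ℕ → B) → Prop} (hp : AtDef g p) : ∀ l, G l → ∃ l₁, G l₁ ∧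
    l ⊆ l₁ ∧ ∃ q : (ℕ → Atm A) → Prop, ∀ l', G l' → l₁ ⊆ l' → ∀ u : ℕ → Atm A × Atm B,
      (∀ j, u j ∈ l') → (q (fun j => (u j).1) ↔ p fun j => (u j).2.1) := by
  induction hp with
  | eq i j => exact fun l hl => ⟨l, hl, fun _ => id, fun v => v i = v j, fun l' h' _ u hu =>
      (h.eq h' (hu i) (hu j)).trans Subtype.ext_iff⟩
  | comp i j k => exact fun l hl => ⟨l, hl, fun _ => id,
      fun v => (v k).1 ≤ RelAlg.comp (v i).1 (v j).1, fun l' h' _ u hu => h.comp h' (hu i) (hu j) (hu k)⟩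
  | conv i j => exact fun l hl => ⟨l, hl, fun _ => id, fun v => (v j).1 ≤ RelAlg.conv (v i).1,
      fun l' h' _ u hu => h.conv h' (hu i) (hu j)⟩
  | ident i => exact fun l hl => ⟨l, hl, fun _ => id, fun v => (v i).1 ≤ RelAlg.ident,
      fun l' h' _ u hu => h.ident h' (hu i)⟩
  | atom i a ha =>
    intro l hl
    obtain ⟨x, hx⟩ := h.back hl ⟨a, ha⟩
    exact ⟨_, hx, List.subset_cons_self _ _, fun v => v i = x, fun l' h' hs u hu =>
      (h.eq h' (hu i) (hs List.mem_cons_self)).trans Subtype.ext_iff⟩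
  | pred i j => exact fun l hl => ⟨l, hl, fun _ => id, fun v => (v i).1 ≤ f j,
      fun l' h' _ u hu => h.pred h' (hu i) j⟩
  | not _ ih =>
    intro l hl
    obtain ⟨l₁, h1, h2, q, hq⟩ := ih l hl
    exact ⟨l₁, h1, h2, fun v => ¬q v, fun l' h' hs u hu => not_congr (hq l' h' hs u hu)⟩
  | or _ _ ih ih' =>
    intro l hl
    obtain ⟨l₁, h1, h2, q, hq⟩ := ih l hl
    obtain ⟨l₂, h3, h4, r, hr⟩ := ih' l₁ h1
    exact ⟨l₂, h3, List.Subset.trans h2 h4, fun v => q v ∨ r v, fun l' h' hs u hu =>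
      or_congr (hq l' h' (List.Subset.trans h4 hs) u hu) (hr l' h' hs u hu)⟩
  | @ex i p _ ih =>
    intro l hl
    obtain ⟨l₁, h1, h2, q, hq⟩ := ih l hl
    refine ⟨l₁, h1, h2, fun v => ∃ x, q (update v i x), fun l' h' hs u hu => ?_⟩
    have key : ∀ x y, G ((x, y) :: l') →
        (q (update (fun j => (u j).1) i x) ↔ p (update (fun j => (u j).2.1) i y.1)) := by
      intro x y k
      have := hq _ k (List.subset_cons_of_subset _ hs) (update u i (x, y)) fun j => by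
        rcases eq_or_ne j i with rfl | e
        · simp
        · simp [update_of_ne e, hu j]
      rwa [show (fun j => (update u i (x, y) j).1) = _ from comp_update Prod.fst u i _,
        show (fun j => (update u i (x, y) j).2.1) = _ from
          comp_update (fun z : Atm A × Atm B => z.2.1) u i _] at this
    constructor
    · rintro ⟨x, hx⟩
      obtain ⟨y, hy⟩ := h.forth h' x
      exact ⟨y, y.2, (key x y hy).1 hx⟩
    · rintro ⟨y, hy, hp⟩
      obtain ⟨x, hx⟩ := h.back h' ⟨y, hy⟩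
      exact ⟨x, (key x _ hx).2 hp⟩

/-- `a` and `b` contain corresponding atoms in all extensions of `l`. -/
def Corr (G : List (Atm A × Atm B) → Prop) (l : List (Atm A × Atm B)) (a : A) (b : B) : Prop :=
  ∀ l', G l' → l ⊆ l' → ∀ u ∈ l', (u.1.1 ≤ a ↔ u.2.1 ≤ b)

theorem AI.corr (h : AI f g G) {b : B} (hb : Definable g b) {l} (hl : G l) :
    ∃ l₁, G l₁ ∧ l ⊆ l₁ ∧ ∃ a, Corr G l₁ a b := by
  obtain ⟨p, hp, e⟩ := hb
  obtain ⟨l₁, h1, h2, q, hq⟩ := h.inv hp l hl
  obtain ⟨a, ha⟩ := h.hold h1 b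
  refine ⟨l₁, h1, h2, a, fun l' h' hs u hu => ?_⟩
  obtain ⟨y, k1, k2⟩ := ha u.1
  rw [k2, e _ y.2, e _ u.2.2, ← hq l' h' hs (fun _ => u) fun _ => hu,
    ← hq _ k1 (List.subset_cons_self _ _) (fun _ => (u.1, y)) fun _ => List.mem_cons_self]

variable [IsAtomic A] [IsAtomic B] {l : List (Atm A × Atm B)} {a a' : A} {b b' : B}

omit [IsAtomic B] in
theorem AI.uniq (h : AI f g G) (hl : G l) (h1 : Corr G l a b) (h2 : Corr G l a' b) : a = a' :=
  lo_inj (Set.ext fun x => by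
    obtain ⟨y, k⟩ := h.forth hl x
    exact (h1 _ k (List.subset_cons_self _ _) _ List.mem_cons_self).trans
      (h2 _ k (List.subset_cons_self _ _) _ List.mem_cons_self).symm)

omit [IsAtomic A] in
theorem AI.uniq' (h : AI f g G) (hl : G l) (h1 : Corr G l a b) (h2 : Corr G l a b') : b = b' :=
  lo_inj (Set.ext fun y => by
    obtain ⟨x, k⟩ := h.back hl y
    exact (h1 _ k (List.subset_cons_self _ _) _ List.mem_cons_self).symm.trans
      (h2 _ k (List.subset_cons_self _ _) _ List.mem_cons_self))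

omit [IsAtomic A] [IsAtomic B] in
theorem AI.corr_conv (h : AI f g G) (h1 : Corr G l a b) :
    Corr G l (RelAlg.conv a) (RelAlg.conv b) := fun l' h' hs u hu => by
  have key : ∀ x y, G ((x, y) :: l') → ((x.1 ≤ a ∧ u.1.1 ≤ RelAlg.conv x.1) ↔
      (y.1 ≤ b ∧ u.2.1 ≤ RelAlg.conv y.1)) := fun x y k =>
    and_congr (h1 _ k (List.subset_cons_of_subset _ hs) _ List.mem_cons_self)
      (h.conv k List.mem_cons_self (List.mem_cons_of_mem _ hu))
  rw [at_conv u.1.2, at_conv u.2.2]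
  exact ⟨fun ⟨x, hx⟩ => (h.forth h' x).imp fun y k => (key x y k).1 hx,
    fun ⟨y, hy⟩ => (h.back h' y).imp fun x k => (key x y k).2 hy⟩

theorem AI.corr_comp (h : AI f g G) (h1 : Corr G l a b) (h2 : Corr G l a' b') :
    Corr G l (RelAlg.comp a a') (RelAlg.comp b b') := fun l' h' hs u hu => by
  have key : ∀ x y x' y', G ((x', y') :: (x, y) :: l') →
      ((x.1 ≤ a ∧ x'.1 ≤ a' ∧ u.1.1 ≤ RelAlg.comp x.1 x'.1) ↔
        (y.1 ≤ b ∧ y'.1 ≤ b' ∧ u.2.1 ≤ RelAlg.comp y.1 y'.1)) := fun x y x' y' k =>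
    have s : l ⊆ (x', y') :: (x, y) :: l' := fun _ m => by simp [hs m]
    and_congr (h1 _ k s (x, y) (by simp)) (and_congr (h2 _ k s _ List.mem_cons_self)
      (h.comp k (u := (x, y)) (by simp) List.mem_cons_self (by simp [hu])))
  rw [at_comp u.1.2, at_comp u.2.2]
  constructor
  · rintro ⟨x, x', hx⟩
    obtain ⟨y, k⟩ := h.forth h' x
    exact ⟨y, (h.forth k x').imp fun y' k => (key _ _ _ _ k).1 hx⟩
  · rintro ⟨y, y', hy⟩
    obtain ⟨x, k⟩ := h.back h' y
    exact ⟨x, (h.back k y').imp fun x' k => (key _ _ _ _ k).2 hy⟩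

theorem AI.isRRA (h : AI f g G) (hA : IsRRA A) {C : Type} [BooleanAlgebra C] [RelAlg C]
    (e : C → B) (h0 : Injective e) (h1 : ∀ a b, e (a ⊔ b) = e a ⊔ e b) (h2 : ∀ a, e aᶜ = (e a)ᶜ)
    (h3 : ∀ a b, e (RelAlg.comp a b) = RelAlg.comp (e a) (e b))
    (h4 : ∀ a, e (RelAlg.conv a) = RelAlg.conv (e a)) (h5 : e RelAlg.ident = RelAlg.ident)
    (hd : ∀ x, Definable g (e x)) : IsRRA C := by
  classical
  have key : ∀ F : Finset C, ∃ l, G l ∧ ∃ φ : C → A, ∀ x ∈ F, Corr G l (φ x) (e x) := fun F => by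
    induction F using Finset.induction_on with
    | empty => exact ⟨[], h.nil, fun _ => ⊥, by simp⟩
    | insert x F _ ih =>
      obtain ⟨l, hl, φ, hφ⟩ := ih
      obtain ⟨l₁, k1, k2, a, ha⟩ := h.corr (hd x) hl
      refine ⟨l₁, k1, update φ x a, fun y hy => ?_⟩
      rcases eq_or_ne y x with rfl | k
      · rwa [update_self]
      · rw [update_of_ne k]
        exact fun l' h' hs => hφ y ((Finset.mem_insert.1 hy).resolve_left k) l' h'
          (List.Subset.trans k2 hs)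
  choose l hl φ hφ using key
  have ev : ∀ x, ∀ᶠ F in Ultrafilter.of (atTop : Filter (Finset C)),
      Corr G (l F) (φ F x) (e x) := fun x =>
    ((eventually_ge_atTop {x}).filter_mono (Ultrafilter.of_le _)).mono fun F k =>
      hφ F x (k (Finset.mem_singleton_self x))
  refine isRRA_ultra (Ultrafilter.of (atTop : Filter (Finset C))) (fun _ => A) (fun _ => hA) φ
    (fun a b k => ?_) (fun a b => ?_) (fun a => ?_) (fun a b => ?_) (fun a => ?_) ?_
  · filter_upwards [ev a, ev b] with F k1 k2 k3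
    exact k (h0 (h.uniq' (hl F) k1 (k3 ▸ k2)))
  · filter_upwards [ev a, ev b, ev (a ⊔ b)] with F k1 k2 k3
    refine h.uniq (hl F) k3 fun l' h' hs u hu => ?_
    rw [h1, at_le_sup u.1.2, at_le_sup u.2.2, k1 l' h' hs u hu, k2 l' h' hs u hu]
  · filter_upwards [ev a, ev aᶜ] with F k1 k3
    refine h.uniq (hl F) k3 fun l' h' hs u hu => ?_
    rw [h2, at_le_compl u.1.2, at_le_compl u.2.2, k1 l' h' hs u hu]
  · filter_upwards [ev a, ev b, ev (RelAlg.comp a b)] with F k1 k2 k3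
    exact h.uniq (hl F) k3 (h3 a b ▸ h.corr_comp k1 k2)
  · filter_upwards [ev a, ev (RelAlg.conv a)] with F k1 k3
    exact h.uniq (hl F) k3 (h4 a ▸ h.corr_conv k1)
  · filter_upwards [ev RelAlg.ident] with F k3
    exact h.uniq (hl F) k3 (h5 ▸ fun l' h' _ u hu => h.ident h' hu)

end Pool.Agent.Lib.MP_f51cdd_lc.Seu
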