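import Pool.Agent.Lib.MP_f51cdd_lc.Seu.Clo

/-!
Elements of a tree-like group that fix a few heavy blocks agree on a given invariant set with a
product of permutations of small support from the 2-closure.
-/

namespace Pool.Agent.Lib.MP_f51cdd_lc.Seu

open Equiv Function

variable {Ω₀ Ω Ω' : Type}

/-- The 2-closure. -/
def C2 (Δ : Subgroup (Perm Ω)) (σ : Perm Ω) : Prop := ∀ x y, ∃ δ ∈ Δ, δ x = σ x ∧ δ y = σ y

theorem C2.cl {Δ : Subgroup (Perm Ω)} {σ : Perm Ω} (h : C2 Δ σ) : Cl 2 Δ σ := by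
  classical
  intro s hs
  obtain h0 | h0 | h0 : s.card = 0 ∨ s.card = 1 ∨ s.card = 2 := by omega
  · exact ⟨1, Δ.one_mem, by simp [Finset.card_eq_zero.1 h0]⟩
  · obtain ⟨a, rfl⟩ := Finset.card_eq_one.1 h0
    obtain ⟨δ, hδ, h1, -⟩ := h a a
    exact ⟨δ, hδ, by simpa using h1⟩
  · obtain ⟨a, b, -, rfl⟩ := Finset.card_eq_two.1 h0
    obtain ⟨δ, hδ, h1, h2⟩ := h a b
    exact ⟨δ, hδ, by simpa using ⟨h1, h2⟩⟩

/-- The weight of a set: the number of points above it. -/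
noncomputable def wt (p : Ω₀ → Ω) (B : Set Ω) : ℕ := (p ⁻¹' B).ncard

/-- The group generated by the elements of the 2-closure whose support has small weight. -/
def Sm (Δ : Subgroup (Perm Ω)) (p : Ω₀ → Ω) (b : ℕ) : Subgroup (Perm Ω) :=
  Subgroup.closure {τ | C2 Δ τ ∧ wt p {x | τ x ≠ x} < 2 * b}

/-- The conclusion of the lemma. -/
def LemS (Ω₀ : Type) (b : ℕ) (Ω : Type) (Δ : Subgroup (Perm Ω)) : Prop :=
  ∀ (p : Ω₀ → Ω) (R : Set Ω), (∀ g ∈ Δ, ∃ g₀ : Perm Ω₀, ∀ z, p (g₀ z) = g (p z)) →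
    (∀ g ∈ Δ, ∀ x ∈ R, g x ∈ R) → ∃ 𝓑 : Set (Set Ω),
      (∀ B ∈ 𝓑, (∃ x ∈ B, x ∈ R) ∧ b ≤ wt p B) ∧
      (∀ B ∈ 𝓑, ∀ B' ∈ 𝓑, ∀ x ∈ B, x ∈ B' → B = B') ∧ (∀ g ∈ Δ, ∀ B ∈ 𝓑, g '' B ∈ 𝓑) ∧
      ∀ δ ∈ Δ, (∀ B ∈ 𝓑, δ '' B = B) → ∃ σ ∈ Sm Δ p b, ∀ x ∈ R, σ x = δ x

theorem wt_single {Δ : Subgroup (Perm Ω)} {p : Ω₀ → Ω}
    (hp : ∀ g ∈ Δ, ∃ g₀ : Perm Ω₀, ∀ z, p (g₀ z) = g (p z)) {g : Perm Ω} (hg : g ∈ Δ) (x : Ω) :
    wt p {g x} = wt p {x} := by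
  obtain ⟨g₀, h⟩ := hp g hg
  have : p ⁻¹' {x} = g₀ ⁻¹' (p ⁻¹' {g x}) := by ext z; simp [h]
  rw [wt, wt, this, Set.ncard_preimage_of_injective_subset_range g₀.injective (by simp)]

theorem wt_pair [Finite Ω₀] (p : Ω₀ → Ω) {x y : Ω} (h : x ≠ y) :
    wt p {x, y} = wt p {x} + wt p {y} := by
  rw [wt, Set.insert_eq, Set.preimage_union, Set.ncard_union_eq
    (Disjoint.preimage _ (by simpa using h))]
  rfl

theorem wt_mono [Finite Ω₀] (p : Ω₀ → Ω) {B B' : Set Ω} (h : B ⊆ B') : wt p B ≤ wt p B' :=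
  Set.ncard_le_ncard (Set.preimage_mono h)

theorem sm_orb {Δ : Subgroup (Perm Ω)} {p : Ω₀ → Ω} {b : ℕ} {σ : Perm Ω} (h : σ ∈ Sm Δ p b)
    (x : Ω) : ∃ g ∈ Δ, g x = σ x := by
  induction h using Subgroup.closure_induction generalizing x with
  | mem τ hτ => exact (hτ.1 x x).imp fun _ h => ⟨h.1, h.2.1⟩
  | one => exact ⟨1, Δ.one_mem, rfl⟩
  | mul σ τ _ _ h1 h2 =>
    obtain ⟨g, hg, e⟩ := h2 x
    obtain ⟨k, hk, e'⟩ := h1 (τ x)
    exact ⟨k * g, Δ.mul_mem hk hg, by rw [Perm.mul_apply, Perm.mul_apply, e, e']⟩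
  | inv σ _ h1 =>
    obtain ⟨g, hg, e⟩ := h1 (σ⁻¹ x)
    exact ⟨g⁻¹, Δ.inv_mem hg, by rw [Perm.inv_eq_iff_eq, e]; simp⟩

theorem sm_heavy [Finite Ω₀] {Δ : Subgroup (Perm Ω)} {p : Ω₀ → Ω} {b : ℕ}
    (hp : ∀ g ∈ Δ, ∃ g₀ : Perm Ω₀, ∀ z, p (g₀ z) = g (p z)) {σ : Perm Ω} (h : σ ∈ Sm Δ p b)
    {x : Ω} (hx : b ≤ wt p {x}) : σ x = x := by
  induction h using Subgroup.closure_induction with
  | mem τ hτ =>
    by_contra hne
    obtain ⟨g, hg, e, -⟩ := hτ.1 x x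
    have h1 := wt_single hp hg x
    have h2 := wt_pair p hne
    have h3 := wt_mono p (B := {τ x, x}) (B' := {x | τ x ≠ x}) (by
      rintro z (rfl | rfl)
      exacts [fun e => hne (τ.injective e), hne])
    have h4 := hτ.2
    rw [e] at h1
    omega
  | one => rfl
  | mul σ τ _ _ h1 h2 => rw [Perm.mul_apply, h2, h1]
  | inv σ _ h1 => rw [Perm.inv_eq_iff_eq, h1]

/-- Pairs of points can be moved independently inside fibres and orbits. -/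
def H2 (Δ : Subgroup (Perm Ω)) (π : Ω → Ω') : Prop :=
  ∀ u v u' v', π u = π u' → π v = π v' → Orb Δ u u' → Orb Δ v v' → (u = v ↔ u' = v') →
    ∃ g ∈ Δ, g u = u' ∧ g v = v'

theorem sm_lift [Finite Ω₀] {Δ : Subgroup (Perm Ω)} {π : Ω → Ω'} (hπ : Surjective π)
    (hinv : Inv Δ fun x y => π x = π y) (h2 : H2 Δ π) {p : Ω₀ → Ω} {b : ℕ} {σ' : Perm Ω'}
    (h : σ' ∈ Sm (img Δ π) (π ∘ p) b) : ∃ σ ∈ Sm Δ p b, ∀ x, π (σ x) = σ' (π x) := by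
  classical
  induction h using Subgroup.closure_induction with
  | mem τ hτ =>
    have hg : ∀ y, ∃ g ∈ Δ, (τ y = y → g = 1) ∧ ∀ x, π x = y → π (g x) = τ y := fun y => by
      by_cases e : τ y = y
      · exact ⟨1, Δ.one_mem, fun _ => rfl, fun x hx => by rw [e, ← hx]; rfl⟩
      · obtain ⟨_, ⟨g, hg, e'⟩, h1, -⟩ := hτ.1 y y
        exact ⟨g, hg, fun h => absurd h e, fun x hx => by rw [← e', hx, h1]⟩
    choose g hg h1 h3 using hg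
    let σ : Perm Ω := Equiv.ofBijective (fun x => g (π x) x) ⟨fun x y e => by
      have : π x = π y := τ.injective (by rw [← h3 _ x rfl, ← h3 _ y rfl]; exact congrArg π e)
      simp only [this] at e
      exact (g _).injective e, fun z => by
      obtain ⟨x, hx⟩ := hπ (τ⁻¹ (π z))
      have e : π ((g (π x))⁻¹ z) = π x := by
        rw [← hinv.iff (hg (π x)), h3 _ x rfl, hx]; simp
      exact ⟨(g (π x))⁻¹ z, by simp only [e]; simp⟩⟩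
    have hσ : ∀ x, σ x = g (π x) x := fun _ => rfl
    refine ⟨σ, Subgroup.subset_closure ⟨fun x y => ?_, (wt_mono p (B := {x | σ x ≠ x})
      (B' := π ⁻¹' {y | τ y ≠ y}) fun x hx e => hx (by rw [hσ, h1 _ e]; rfl)).trans_lt hτ.2⟩, fun x => h3 _ x rfl⟩
    obtain ⟨_, ⟨k, hk, e⟩, e1, e2⟩ := hτ.1 (π x) (π y)
    have ho : ∀ x, Orb Δ (k x) (σ x) := fun x =>
      ⟨g (π x) * k⁻¹, Δ.mul_mem (hg _) (Δ.inv_mem hk), by simp [hσ]⟩
    obtain ⟨l, hl, f1, f2⟩ := h2 (k x) (k y) (σ x) (σ y) (by rw [← e, e1, hσ, h3 _ x rfl])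
      (by rw [← e, e2, hσ, h3 _ y rfl]) (ho x) (ho y) (by simp)
    exact ⟨l * k, Δ.mul_mem hl hk, f1, f2⟩
  | one => exact ⟨1, Subgroup.one_mem _, fun _ => rfl⟩
  | mul σ τ _ _ h1 h2 =>
    obtain ⟨g, hg, e⟩ := h1
    obtain ⟨k, hk, e'⟩ := h2
    exact ⟨g * k, Subgroup.mul_mem _ hg hk, fun x => by simp [e, e']⟩
  | inv σ _ h1 =>
    obtain ⟨g, hg, e⟩ := h1
    exact ⟨g⁻¹, Subgroup.inv_mem _ hg, fun x => by rw [Perm.eq_inv_iff_eq, ← e]; simp⟩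

theorem lemS_step [Finite Ω₀] {Δ : Subgroup (Perm Ω)} {π : Ω → Ω'} (hπ : Surjective π)
    (hinv : Inv Δ fun x y => π x = π y) (h2 : H2 Δ π) {b : ℕ} (ih : LemS Ω₀ b Ω' (img Δ π))
    (fin : ∀ (p : Ω₀ → Ω) (R : Set Ω) (ρ : Perm Ω), (∀ x ∈ R, ρ x ∈ R ∧ π (ρ x) = π x ∧
      Orb Δ x (ρ x) ∧ (b ≤ wt p {x} → ρ x = x)) → ∃ σ ∈ Sm Δ p b, ∀ x ∈ R, σ x = ρ x) :
    LemS Ω₀ b Ω Δ := by
  intro p R hp hR
  obtain ⟨𝓑, b1, b2, b3, b4⟩ := ih (π ∘ p) (π '' R) (by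
    rintro g' ⟨g, hg, e⟩
    obtain ⟨g₀, h⟩ := hp g hg
    exact ⟨g₀, fun z => by simp [e, h]⟩) (by
    rintro g' ⟨g, hg, e⟩ _ ⟨x, hx, rfl⟩
    exact ⟨g x, hR g hg x hx, (e x).symm⟩)
  have him : ∀ {g : Perm Ω} {g' : Perm Ω'}, (∀ x, g' (π x) = π (g x)) → ∀ B,
      g '' (π ⁻¹' B) = π ⁻¹' (g' '' B) := fun {g g'} e B => by
    ext x
    obtain ⟨x, rfl⟩ := g.surjective x
    rw [g.injective.mem_set_image, Set.mem_preimage, Set.mem_preimage, ← e,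
      g'.injective.mem_set_image]
  refine ⟨{B | (∃ y ∈ R, b ≤ wt p {y} ∧ B = {y}) ∨
    ∃ B' ∈ 𝓑, B = π ⁻¹' B' ∧ ∀ y ∈ R, b ≤ wt p {y} → y ∉ B}, ?_, ?_, ?_, fun δ hδ hfix => ?_⟩
  · rintro _ (⟨y, hy, h, rfl⟩ | ⟨B, hB, rfl, -⟩)
    · exact ⟨⟨y, rfl, hy⟩, h⟩
    · obtain ⟨⟨_, h1, x, hx, rfl⟩, h3⟩ := b1 B hB
      exact ⟨⟨x, h1, hx⟩, h3⟩
  · rintro _ (⟨y, hy, h, rfl⟩ | ⟨B, hB, rfl, h⟩) _ (⟨y', hy', h', rfl⟩ | ⟨B', hB', rfl, h'⟩) x
      hx hx'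
    · rw [← hx, ← hx']
    · exact absurd (hx ▸ hx') (h' y hy h)
    · exact absurd (hx' ▸ hx) (h y' hy' h')
    · rw [b2 B hB B' hB' _ hx hx']
  · rintro g hg _ (⟨y, hy, h, rfl⟩ | ⟨B, hB, rfl, h⟩)
    · exact Or.inl ⟨g y, hR g hg y hy, by rwa [wt_single hp hg], by simp⟩
    · obtain ⟨g', hg', e⟩ := exists_img hπ hinv hg
      refine Or.inr ⟨g' '' B, b3 g' hg' B hB, him e B, ?_⟩
      rintro _ hy hw ⟨x, hx, rfl⟩
      exact h x (by simpa using hR _ (Δ.inv_mem hg) _ hy) (by rwa [wt_single hp hg] at hw) hx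
  · have hh : ∀ y ∈ R, b ≤ wt p {y} → δ y = y := fun y hy h => by
      simpa using hfix {y} (Or.inl ⟨y, hy, h, rfl⟩)
    obtain ⟨δ', hδ', e⟩ := exists_img hπ hinv hδ
    obtain ⟨σ', hσ', e'⟩ := b4 δ' hδ' fun B hB => by
      by_cases hc : ∀ y ∈ R, b ≤ wt p {y} → y ∉ π ⁻¹' B
      · have := hfix _ (Or.inr ⟨B, hB, rfl, hc⟩)
        rw [him e] at this
        exact hπ.preimage_injective this
      · push Not at hc
        obtain ⟨y, hy, h, hyB⟩ := hc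
        exact b2 _ (b3 δ' hδ' B hB) B hB (π y) ⟨π y, hyB, by rw [e, hh y hy h]⟩ hyB
    obtain ⟨σ, hσ, f⟩ := sm_lift hπ hinv h2 hσ'
    obtain ⟨τ, hτ, f'⟩ := fin p R (σ⁻¹ * δ) fun x hx => by
      obtain ⟨g, hg, hg'⟩ := sm_orb (Subgroup.inv_mem _ hσ) (δ x)
      refine ⟨by rw [Perm.mul_apply, ← hg']; exact hR g hg _ (hR δ hδ x hx), σ'.injective ?_,
        ⟨g * δ, Δ.mul_mem hg hδ, hg'⟩, fun h => ?_⟩
      · rw [← f, e' _ ⟨x, hx, rfl⟩, e]; simp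
      · rw [Perm.mul_apply, hh x hx h, sm_heavy hp (Subgroup.inv_mem _ hσ) h]
    exact ⟨σ * τ, Subgroup.mul_mem _ hσ hτ, fun x hx => by simp [f' x hx]⟩

theorem lemS {M : ℕ} (hM : 3 ≤ M) [Finite Ω₀] (b : ℕ) {Δ : Subgroup (Perm Ω)} (h : Q M Ω Δ) :
    Finite Ω → LemS Ω₀ b Ω Δ := by
  classical
  induction h with
  | triv Ω =>
    exact fun _ p R _ _ => ⟨∅, by simp, by simp, by simp, fun δ hδ _ =>
      ⟨1, Subgroup.one_mem _, fun x _ => by rw [Subgroup.mem_bot.1 hδ]⟩⟩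
  | fibre Δ π hπ hinv hrig _ ih =>
    intro _
    have key : ∀ u u', π u = π u' → Orb Δ u u' → u = u' := by
      rintro u _ e ⟨g, hg, rfl⟩
      exact (hrig g hg u e.symm).symm
    exact lemS_step hπ hinv
      (fun u v u' v' e1 e2 o1 o2 _ => ⟨1, Δ.one_mem, key _ _ e1 o1, key _ _ e2 o2⟩)
      (ih (Finite.of_surjective π hπ)) fun p R ρ h =>
        ⟨1, Subgroup.one_mem _, fun x hx => key _ _ (h x hx).2.1.symm (h x hx).2.2.1⟩
  | twin Δ π hπ hinv hbig halt _ ih =>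
    intro _
    have mv : ∀ a a' f, π a = π a' →
        ∃ g ∈ Δ, g a = a' ∧ (f ≠ a → f ≠ a' → g f = f) ∧ ∀ z, π (g z) = π z := by
      intro a a' f e
      by_cases hne : a = a'
      · exact ⟨1, Δ.one_mem, hne, fun _ _ => rfl, fun _ => rfl⟩
      obtain ⟨c, hc, hct⟩ := clo_fresh π a {a, a', f}
        (Finset.card_le_three.trans_lt (hM.trans_lt (hbig _ _ e hne)))
      simp only [Finset.mem_insert, Finset.mem_singleton, not_or] at hct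
      obtain ⟨g, hg, g1, g2, g3, g4⟩ := halt a a' c hne (Ne.symm hct.2.1) (Ne.symm hct.1) e
        (e.symm.trans hc.symm)
      refine ⟨g, hg, g1, fun h1 h2 => g4 f h1 h2 (Ne.symm hct.2.2), fun z => ?_⟩
      by_cases ha : z = a
      · rw [ha, g1, e]
      by_cases hb : z = a'
      · rw [hb, g2, hc, e]
      by_cases hc' : z = c
      · rw [hc', g3, hc]
      rw [g4 z ha hb hc']
    have two : ∀ u v u' v', π u = π u' → π v = π v' → (u = v ↔ u' = v') →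
        ∃ g ∈ Δ, g u = u' ∧ g v = v' := by
      intro u v u' v' e1 e2 e
      obtain ⟨g, hg, g1, -, g2⟩ := mv u u' u e1
      by_cases huv : u = v
      · exact ⟨g, hg, g1, by rw [← huv, g1, e.1 huv]⟩
      obtain ⟨k, hk, k1, k2, -⟩ := mv (g v) v' u' ((g2 v).trans e2)
      refine ⟨k * g, Δ.mul_mem hk hg, ?_, k1⟩
      rw [Perm.mul_apply, g1]
      exact k2 (fun h => huv (g.injective (g1.trans h))) fun h => huv (e.2 h)
    refine lemS_step hπ hinv (fun u v u' v' e1 e2 _ _ => two u v u' v' e1 e2)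
      (ih (Finite.of_surjective π hπ)) fun p R ρ h => ?_
    replace h : ∀ x ∈ R, ρ x ∈ R ∧ π (ρ x) = π x ∧ (b ≤ wt p {x} → ρ x = x) :=
      fun x hx => ⟨(h x hx).1, (h x hx).2.1, (h x hx).2.2.2⟩
    induction hn : {x | x ∈ R ∧ ρ x ≠ x}.ncard using Nat.strong_induction_on generalizing ρ with
    | _ n ihn =>
    by_cases h0 : ∀ x ∈ R, ρ x = x
    · exact ⟨1, Subgroup.one_mem _, fun x hx => (h0 x hx).symm⟩
    push Not at h0
    obtain ⟨x, hx, hne⟩ := h0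
    have hs : ∀ z, π (swap x (ρ x) z) = π z := fun z => by
      rw [swap_apply_def]
      split_ifs with h1 h2
      exacts [h1 ▸ (h x hx).2.1, h2 ▸ (h x hx).2.1.symm, rfl]
    have hfix : ∀ z, ρ z = z → (swap x (ρ x) * ρ) z = z := fun z hz => by
      have h1 : z ≠ x := fun e => hne (e ▸ hz)
      rw [Perm.mul_apply, hz, swap_apply_of_ne_of_ne h1 fun e => h1 (ρ.injective (hz.trans e))]
    obtain ⟨σ, hσ, e⟩ := ihn _ (by
      rw [← hn]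
      refine Set.ncard_lt_ncard ⟨fun z hz => ⟨hz.1, fun e => hz.2 (hfix z e)⟩, fun h => ?_⟩
      exact (h ⟨hx, hne⟩).2 (by simp)) (swap x (ρ x) * ρ) (fun z hz => ⟨by
        rw [Perm.mul_apply, swap_apply_def]
        split_ifs
        exacts [(h x hx).1, hx, (h z hz).1], by rw [Perm.mul_apply, hs, (h z hz).2.1],
        fun hw => hfix z ((h z hz).2.2 hw)⟩) rfl
    refine ⟨swap x (ρ x) * σ, Subgroup.mul_mem _ (Subgroup.subset_closure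
      ⟨fun u v => two _ _ _ _ (hs u).symm (hs v).symm (by simp), ?_⟩) hσ,
      fun z hz => by simp [e z hz]⟩
    have h1 := wt_mono p (B := {z | swap x (ρ x) z ≠ z}) (B' := {ρ x, x}) fun z hz => by
      by_contra hc
      simp only [Set.mem_insert_iff, Set.mem_singleton_iff, not_or] at hc
      exact hz (swap_apply_of_ne_of_ne hc.2 hc.1)
    have h2 := wt_pair p hne
    have h3 := mt (h x hx).2.2 hne
    have h4 := mt (h _ (h x hx).1).2.2 fun e => hne (ρ.injective e)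
    omega

end Pool.Agent.Lib.MP_f51cdd_lc.Seu
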