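import Pool.Agent.Lib.MP_f51cdd_lc.Seu.Defs

/-!
Towers of finite sets realising all types; automorphisms of the top of a tower with small support
agree on the bottom with automorphisms of the whole structure.
-/

namespace Pool.Agent.Lib.MP_f51cdd_lc.Seu

open Equiv Function

variable {V K : Type} (χ : (Fin 3 → V) → K)

/-- The automorphisms of a colouring of triples that move finitely many points. -/
def autG : Subgroup (Perm V) where
  carrier := {g | (∀ x, χ (g ∘ x) = χ x) ∧ {x | g x ≠ x}.Finite}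
  one_mem' := ⟨fun _ => rfl, by simp⟩
  mul_mem' := fun {a b} ha hb => ⟨fun x => (ha.1 (b ∘ x)).trans (hb.1 x),
    (ha.2.union hb.2).subset fun x hx => or_iff_not_imp_right.2 fun h1 h2 =>
      hx (by rw [Perm.mul_apply, not_not.1 h1, h2])⟩
  inv_mem' := fun {a} ha => ⟨fun x => by
    rw [← ha.1]; exact congrArg χ (funext fun i => by simp),
    ha.2.subset fun x hx h => hx (by rw [Perm.inv_eq_iff_eq, h])⟩

/-- The permutations keeping `T` and the colouring of triples in `T`. -/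
def autT (T : Set V) : Subgroup (Perm V) where
  carrier := {g | (∀ x, g x ∈ T ↔ x ∈ T) ∧ ∀ x : Fin 3 → V, (∀ i, x i ∈ T) → χ (g ∘ x) = χ x}
  one_mem' := ⟨fun _ => Iff.rfl, fun _ _ => rfl⟩
  mul_mem' := fun {a b} ha hb => ⟨fun x => (ha.1 _).trans (hb.1 x), fun x hx =>
    (ha.2 (b ∘ x) fun i => (hb.1 _).2 (hx i)).trans (hb.2 x hx)⟩
  inv_mem' := fun {a} ha => ⟨fun x => by rw [← ha.1]; simp, fun x hx => by
    rw [← ha.2 _ fun i => by rw [← ha.1]; simpa using hx i]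
    exact congrArg χ (funext fun i => by simp)⟩

/-- Every type of a triple over `S` is realised in `S'`. -/
def Rich (S S' : Set V) : Prop :=
  S ⊆ S' ∧ ∀ x : Fin 3 → V, ∃ x' : Fin 3 → V, (∀ i, x' i ∈ S') ∧ (∀ i, x' i ∈ S ↔ x i ∈ S) ∧
    ∀ t : Fin 3 → Option S, χ (fun i => (t i).elim (x' i) Subtype.val) =
      χ fun i => (t i).elim (x i) Subtype.val

theorem exists_rich [Finite K] {S : Set V} (hS : S.Finite) : ∃ S', S'.Finite ∧ Rich χ S S' := by
  have := hS.to_subtype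
  let ty : (Fin 3 → V) → (Fin 3 → Prop) × ((Fin 3 → Option S) → K) := fun x =>
    (fun i => x i ∈ S, fun t => χ fun i => (t i).elim (x i) Subtype.val)
  refine ⟨S ∪ ⋃ c, Set.range (Set.rangeSplitting ty c),
    hS.union (Set.finite_iUnion fun _ => Set.finite_range _), Set.subset_union_left, fun x => ?_⟩
  have e := Set.apply_rangeSplitting ty ⟨ty x, x, rfl⟩
  exact ⟨_, fun i => Or.inr (Set.mem_iUnion.2 ⟨_, i, rfl⟩),
    fun i => iff_of_eq (congrFun (congrArg Prod.fst e) i), congrFun (congrArg Prod.snd e)⟩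

theorem exists_tower [Finite K] {S : Set V} (hS : S.Finite) : ∃ T : ℕ → Set V, T 0 = S ∧
    (∀ j, (T j).Finite) ∧ ∀ j, Rich χ (T j) (T (j + 1)) := by
  choose nx h1 h2 using fun S : {S : Set V // S.Finite} => exists_rich χ S.2
  let f : {S : Set V // S.Finite} → {S : Set V // S.Finite} := fun S => ⟨nx S, h1 S⟩
  exact ⟨fun j => (f^[j] ⟨S, hS⟩).1, rfl, fun j => (f^[j] ⟨S, hS⟩).2,
    fun j => by simp only [iterate_succ_apply']; exact h2 _⟩

variable {χ}

theorem Rich.repl {S S' : Set V} (h : Rich χ S S') (x : Fin 3 → V) : ∃ x' : Fin 3 → V,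
    (∀ i, x' i ∈ S') ∧ (∀ i, x i ∈ S → x' i = x i) ∧ (∀ i, x i ∉ S → x' i ∉ S) ∧
    ∀ f : V → V, (∀ z ∈ S, f z ∈ S) → (∀ z, z ∉ S → f z = z) → χ (f ∘ x') = χ (f ∘ x) := by
  classical
  obtain ⟨y, h1, h2, h3⟩ := h.2 x
  refine ⟨fun i => if x i ∈ S then x i else y i, fun i => ?_, fun i hi => if_pos hi,
    fun i hi => by simp only [if_neg hi, h2]; exact hi, fun f f1 f2 => ?_⟩
  · by_cases hi : x i ∈ S
    · simp only [if_pos hi]; exact h.1 hi
    · simp only [if_neg hi]; exact h1 i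
  · refine Eq.trans (congrArg χ (funext fun i => ?_)) ((h3 fun i =>
      if hi : x i ∈ S then some ⟨f (x i), f1 _ hi⟩ else none).trans (congrArg χ (funext fun i => ?_)))
    · by_cases hi : x i ∈ S
      · simp [hi]
      · simp [hi, f2 _ (mt (h2 i).1 hi)]
    · by_cases hi : x i ∈ S
      · simp [hi]
      · simp [hi, f2 _ hi]

theorem lemA_aux {S S' T : Set V} (h : Rich χ S S') (hT : S' ⊆ T) {τ : Perm V}
    (hτ : τ ∈ autT χ T) (hfix : ∀ x ∈ S', x ∉ S → τ x = x) (hf : {x | τ x ≠ x}.Finite) :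
    ∃ α ∈ autG χ, ∀ x, (∀ n : ℤ, (τ ^ n) x ∈ S) → α x = τ x := by
  classical
  let Low : V → Prop := fun x => ∀ n : ℤ, (τ ^ n) x ∈ S
  have hL : ∀ (n : ℤ) x, Low ((τ ^ n) x) ↔ Low x := fun n x =>
    ⟨fun h m => by simpa [← Perm.mul_apply, ← zpow_add] using h (m - n),
      fun h m => by simpa [← Perm.mul_apply, ← zpow_add] using h (m + n)⟩
  have hL1 : ∀ x, Low (τ x) ↔ Low x := fun x => by simpa using hL 1 x
  have hLS : ∀ x, Low x → x ∈ S := fun x hx => by simpa using hx 0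
  let α : Perm V := Perm.ofSubtype (τ.subtypePerm hL1)
  have a1 : ∀ x, Low x → α x = τ x := fun x hx => Perm.ofSubtype_subtypePerm_of_mem hL1 hx
  have a2 : ∀ x, ¬Low x → α x = x := fun x hx => Perm.ofSubtype_subtypePerm_of_not_mem hL1 hx
  have aS : ∀ z ∈ S, α z ∈ S := fun z hz => by
    by_cases hl : Low z
    · rw [a1 z hl]; exact hLS _ ((hL1 z).2 hl)
    · rwa [a2 z hl]
  have comm : ∀ (n : ℤ) z, (τ ^ n) (α z) = α ((τ ^ n) z) := fun n z => by
    by_cases hl : Low z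
    · rw [a1 z hl, a1 _ ((hL n z).2 hl), ← Perm.mul_apply, ← Perm.mul_apply,
        ((Commute.refl τ).zpow_left n).eq]
    · rw [a2 z hl, a2 _ (mt (hL n z).1 hl)]
  refine ⟨α, ⟨fun x => ?_, hf.subset fun x hx e => hx
    ((em (Low x)).elim (fun hl => (a1 x hl).trans e) (a2 x))⟩, a1⟩
  induction hn : {i | x i ∈ S ∧ ¬Low (x i)}.ncard using Nat.strong_induction_on generalizing x with
  | _ n ih =>
  obtain ⟨y, y1, y2, y3, y4⟩ := h.repl x
  rw [← y4 α aS fun z hz => a2 z (mt (hLS z) hz)]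
  refine Eq.trans ?_ (y4 id (fun _ h => h) fun _ _ => rfl)
  have hy : ∀ i, y i ∈ S → y i = x i := fun i hi => y2 i (by_contra fun hc => y3 i hc hi)
  by_cases h0 : ∀ i, y i ∈ S → Low (y i)
  · refine Eq.trans (congrArg χ (funext fun i => ?_)) (hτ.2 y fun i => hT (y1 i))
    by_cases hi : y i ∈ S
    · exact a1 _ (h0 i hi)
    · exact (a2 _ (mt (hLS _) hi)).trans (hfix _ (y1 i) hi).symm
  · push Not at h0
    obtain ⟨i, hi, hl⟩ := h0
    obtain ⟨m, hm⟩ := not_forall.1 hl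
    have hp := zpow_mem hτ m
    have hαT : ∀ i, α (y i) ∈ T := fun i => by
      by_cases hl : Low (y i)
      · rw [a1 _ hl]; exact (hτ.1 _).2 (hT (y1 i))
      · rw [a2 _ hl]; exact hT (y1 i)
    rw [← hp.2 (α ∘ y) hαT]
    refine Eq.trans ?_ (hp.2 y fun i => hT (y1 i))
    refine Eq.trans (congrArg χ (funext fun i => comm m (y i))) (ih _ ?_ ((τ ^ m) ∘ y) rfl)
    rw [← hn]
    refine Set.ncard_lt_ncard ⟨fun j hj => ?_, fun hc => hm (hc (show x i ∈ S ∧ ¬Low (x i) from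
      hy i hi ▸ ⟨hi, hl⟩)).1⟩
    have hjS : y j ∈ S := by_contra fun hc => hc (by
      have := hj.1
      rwa [comp_apply, Perm.zpow_apply_eq_self_of_apply_eq_self (hfix _ (y1 j) hc)] at this)
    exact show x j ∈ S ∧ ¬Low (x j) from hy j hjS ▸ ⟨hjS, mt (hL m _).2 hj.2⟩

theorem lemA {T : ℕ → Set V} (hR : ∀ j, Rich χ (T j) (T (j + 1))) {L : ℕ} {τ : Perm V}
    (hτ : τ ∈ autT χ (T L)) (h0 : ∀ x, τ x ∈ T 0 ↔ x ∈ T 0) (hf : {x | τ x ≠ x}.Finite)
    (hL : {x | τ x ≠ x}.ncard < L) : ∃ α ∈ autG χ, ∀ x ∈ T 0, α x = τ x := by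
  have hm : Monotone T := monotone_nat_of_le_succ fun j => (hR j).1
  obtain ⟨j, hj⟩ : ∃ j : Fin L, ∀ x ∈ T (j + 1), x ∉ T j → τ x = x := by
    by_contra hc
    push Not at hc
    choose f f1 f2 f3 using hc
    have hinj : Injective f := fun i j e => by
      by_contra hne
      rcases lt_or_gt_of_ne hne with h | h
      · exact f2 j (e ▸ hm (Nat.succ_le_of_lt h) (f1 i))
      · exact f2 i (e ▸ hm (Nat.succ_le_of_lt h) (f1 j))
    have := Set.ncard_le_ncard (s := Set.range f) (by rintro _ ⟨j, rfl⟩; exact f3 j) hf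
    rw [Set.ncard_range_of_injective hinj, Nat.card_eq_fintype_card, Fintype.card_fin] at this
    omega
  obtain ⟨α, hα, e⟩ := lemA_aux (hR j) (hm (Nat.succ_le_of_lt j.2)) hτ hj hf
  refine ⟨α, hα, fun x hx => e x fun n => hm (Nat.zero_le _) ?_⟩
  have : τ ∈ autT (fun _ => ()) (T 0) := ⟨h0, fun _ _ => rfl⟩
  exact ((zpow_mem this n).1 x).2 hx

end Pool.Agent.Lib.MP_f51cdd_lc.Seu
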