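import Pool.Agent.Lib.MP_f51cdd_lc.Seu.All
import Pool.Agent.Lib.MP_f51cdd_lc.At.GrpS
import Pool.Agent.Lib.MP_f51cdd_lc.At.Tower

/-!
Every finite subset of a ternary structure is pinned, up to automorphisms of the structure, by a
bounded number of finite sets.
-/

namespace Pool.Agent.Lib.MP_f51cdd_lc.Seu

open Equiv Function

theorem exists_marks {Ω : Type} [Finite Ω] (𝓑 : Set (Set Ω)) (R : Set Ω)
    (h1 : ∀ B ∈ 𝓑, (∃ x ∈ B, x ∈ R) ∧ R.ncard ≤ B.ncard)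
    (h2 : ∀ B ∈ 𝓑, ∀ B' ∈ 𝓑, ∀ x ∈ B, x ∈ B' → B = B') :
    ∃ μ : Set Ω, ∀ B ∈ 𝓑, ∀ B' ∈ 𝓑, (μ ∩ B).ncard = (μ ∩ B').ncard → B = B' := by
  choose pt p1 p2 using fun B : 𝓑 => (h1 B B.2).1
  let ν : 𝓑 → Fin (Nat.card R) := fun B => Finite.equivFin R ⟨pt B, p2 B⟩
  choose m m1 m2 using fun B : 𝓑 => Set.exists_subset_card_eq (n := ν B) (s := B.1)
    ((ν B).2.le.trans (h1 B B.2).2)
  have e : ∀ B : 𝓑, (⋃ B, m B) ∩ B = m B := fun B => by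
    refine Set.Subset.antisymm (fun x hx => ?_) fun x hx => ⟨Set.mem_iUnion.2 ⟨B, hx⟩, m1 B hx⟩
    obtain ⟨B', hB'⟩ := Set.mem_iUnion.1 hx.1
    exact (Subtype.ext (h2 _ B'.2 _ B.2 x (m1 B' hB') hx.2) : B' = B) ▸ hB'
  refine ⟨⋃ B, m B, fun B hB B' hB' h => ?_⟩
  rw [e ⟨B, hB⟩, e ⟨B', hB'⟩, m2, m2] at h
  have : pt ⟨B, hB⟩ = pt ⟨B', hB'⟩ :=
    congrArg Subtype.val ((Finite.equivFin R).injective (Fin.ext h))
  exact h2 B hB B' hB' _ (p1 ⟨B, hB⟩) (this ▸ p1 ⟨B', hB'⟩)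

/-- Automorphisms of `T` keeping the sets in `l` agree on `T₀` with global automorphisms. -/
def Rig {V K : Type} (χ : (Fin 3 → V) → K) (T₀ T : Set V) (l : List (Set V)) : Prop :=
  ∀ δ : V → V, Set.BijOn δ T T → (∀ x : Fin 3 → V, (∀ i, x i ∈ T) → χ (δ ∘ x) = χ x) →
    (∀ s ∈ l, ∀ x ∈ T, δ x ∈ s ↔ x ∈ s) → ∃ α ∈ autG χ, ∀ x ∈ T₀, α x = δ x

theorem lemT : ∃ D : ℕ, ∀ (V K : Type) [Finite K] (χ : (Fin 3 → V) → K) (T₀ : Set V),
    T₀.Finite → ∃ (T : Set V) (l : List (Set V)), T₀ ⊆ T ∧ T ∈ l ∧ l.length ≤ D ∧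
      (∀ s ∈ l, s.Finite) ∧ Rig χ T₀ T l := by
  classical
  obtain ⟨E₀, hM⟩ := main_exists
  refine ⟨(E₀ + 4) * (E₀ + 4) + 3, fun V K _ χ T₀ h₀ => ?_⟩
  obtain ⟨t, t0, t1, t2⟩ := exists_tower χ h₀
  set T := t (2 * T₀.ncard) with hT
  have hsub : T₀ ⊆ T := t0 ▸ monotone_nat_of_le_succ (fun j => (t2 j).1) (Nat.zero_le _)
  have : Finite T := (t1 _).to_subtype
  obtain ⟨c, hQ⟩ := hM T (stab (autOn χ T) fun x => x.1 ∈ T₀) (E₀ + 4) (by omega)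
  set Δ := stab (stab (autOn χ T) fun x => x.1 ∈ T₀) c
  obtain ⟨𝓑, b1, b2, b3, b4⟩ := lemS (Ω₀ := T) (by omega) T₀.ncard hQ this id {x | x.1 ∈ T₀}
    (fun g _ => ⟨g, fun _ => rfl⟩) fun g hg x hx => (iff_of_eq (hg.1.2 x)).2 hx
  obtain ⟨μ, hμ⟩ := exists_marks 𝓑 {x | x.1 ∈ T₀} (fun B hB => ⟨(b1 B hB).1,
    (Set.ncard_le_ncard_of_injOn Subtype.val (fun _ h => h) Subtype.val_injective.injOn h₀).trans
      (b1 B hB).2⟩) b2
  refine ⟨T, T :: T₀ :: Subtype.val '' μ :: Finset.univ.toList.map fun k =>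
    Subtype.val '' (c ⁻¹' {k}), hsub, List.mem_cons_self, by simp, fun s hs => ?_,
    fun δ d1 d2 d3 => ?_⟩
  · simp only [List.mem_cons, List.mem_map] at hs
    rcases hs with rfl | rfl | rfl | ⟨k, -, rfl⟩
    exacts [t1 _, h₀, (Set.toFinite _).image _, (Set.toFinite _).image _]
  let γ : Perm T := d1.equiv δ
  have hγ : ∀ x, (γ x : V) = δ x := fun _ => rfl
  have hs : ∀ s : Set T, (∀ x ∈ T, δ x ∈ Subtype.val '' s ↔ x ∈ Subtype.val '' s) →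
      ∀ x, γ x ∈ s ↔ x ∈ s := fun s h x => by
    rw [← Subtype.val_injective.mem_set_image, hγ, h x x.2, Subtype.val_injective.mem_set_image]
  have hγΔ : γ ∈ Δ := ⟨⟨fun x => d2 (fun i => x i) fun i => (x i).2,
    fun x => propext (d3 T₀ (by simp) x x.2)⟩, fun x =>
      (hs (c ⁻¹' {c x}) (d3 _ (by simp)) x).2 rfl⟩
  obtain ⟨σ, hσ, e⟩ := b4 γ hγΔ fun B hB => hμ _ (b3 γ hγΔ B hB) B hB (by
    rw [← Set.ncard_image_of_injective (μ ∩ B) γ.injective]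
    congr 1
    ext x
    obtain ⟨x, rfl⟩ := γ.surjective x
    simp only [Set.mem_inter_iff, γ.injective.mem_set_image, hs μ (d3 _ (by simp))])
  have keep : ∀ {σ : Perm T}, σ ∈ Sm Δ id T₀.ncard → ∀ x, (σ x).1 ∈ T₀ ↔ x.1 ∈ T₀ :=
    fun h x => by
      obtain ⟨g, hg, e⟩ := sm_orb h x
      exact e ▸ iff_of_eq (hg.1.2 x)
  suffices ∃ α ∈ autG χ, ∀ x : T, x.1 ∈ T₀ → α x = σ x from this.imp fun α h =>
    ⟨h.1, fun x hx => by rw [h.2 ⟨x, hsub hx⟩ hx, e _ hx]; rfl⟩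
  clear e
  induction hσ using Subgroup.closure_induction with
  | mem τ hτ =>
    have a1 : ∀ x : T, Perm.ofSubtype τ x = τ x := Perm.ofSubtype_apply_coe τ
    have a2 : ∀ x, x ∉ T → Perm.ofSubtype τ x = x := fun x => Perm.ofSubtype_apply_of_not_mem τ
    have a3 : {x | Perm.ofSubtype τ x ≠ x} = Subtype.val '' {x | τ x ≠ x} := by
      ext x
      by_cases hx : x ∈ T
      · lift x to T using hx
        simp only [Set.mem_ofPred_eq, Subtype.val_injective.mem_set_image, a1, ne_eq,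
          Subtype.val_inj]
      · simp [a2 x hx, hx]
    obtain ⟨α, hα, e⟩ := lemA t2 (L := 2 * T₀.ncard) (τ := Perm.ofSubtype τ)
      ⟨Perm.ofSubtype_apply_mem_iff_mem τ, fun x hx => by
        obtain ⟨g, hg, e⟩ := sCl _ T Δ hQ 3 (by omega) τ hτ.1.cl
          (Finset.univ.image fun i => ⟨x i, hx i⟩) (Finset.card_image_le.trans (by simp))
        refine Eq.trans (congrArg χ (funext fun i => ?_)) (hg.1.1 fun i => ⟨x i, hx i⟩)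
        rw [e _ (Finset.mem_image_of_mem _ (Finset.mem_univ i))]
        exact a1 ⟨x i, hx i⟩⟩ (fun x => by
        rw [t0]
        by_cases hx : x ∈ T
        · lift x to T using hx
          rw [a1]; exact keep (Subgroup.subset_closure hτ) x
        · rw [a2 x hx]) (a3 ▸ (Set.toFinite _).image _)
      (by rw [a3, Set.ncard_image_of_injective _ Subtype.val_injective]; exact hτ.2)
    exact ⟨α, hα, fun x hx => by rw [e x (t0 ▸ hx), a1]⟩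
  | one => exact ⟨1, one_mem _, fun _ _ => rfl⟩
  | mul σ τ _ hτ h1 h2 =>
    obtain ⟨α, hα, e⟩ := h1
    obtain ⟨β, hβ, e'⟩ := h2
    exact ⟨α * β, mul_mem hα hβ, fun x hx => by
      rw [Perm.mul_apply, e' x hx, e _ ((keep hτ x).2 hx)]; rfl⟩
  | inv σ hσ h1 =>
    obtain ⟨α, hα, e⟩ := h1
    exact ⟨α⁻¹, inv_mem hα, fun x hx => by
      rw [Perm.inv_eq_iff_eq, e _ ((keep (inv_mem hσ) x).2 hx)]; simp⟩

/-- The same, the global automorphisms keeping a further set `a`. -/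
def RigS {V K : Type} (χ : (Fin 3 → V) → K) (a T₀ T : Set V) (l : List (Set V)) : Prop :=
  ∀ δ : V → V, Set.BijOn δ T T → (∀ x : Fin 3 → V, (∀ i, x i ∈ T) → χ (δ ∘ x) = χ x) →
    (∀ s ∈ l, ∀ x ∈ T, δ x ∈ s ↔ x ∈ s) →
      ∃ α ∈ autG χ, (∀ x, α x ∈ a ↔ x ∈ a) ∧ ∀ x ∈ T₀, α x = δ x

theorem lemTS : ∃ D : ℕ, ∀ (V K : Type) [Finite K] (χ : (Fin 3 → V) → K) (a T₀ : Set V),
    T₀.Finite → ∃ (T : Set V) (l : List (Set V)), T₀ ⊆ T ∧ T ∈ l ∧ l.length ≤ D ∧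
      (∀ s ∈ l, s.Finite) ∧ RigS χ a T₀ T (a :: l) := by
  obtain ⟨D, hD⟩ := lemT
  refine ⟨D, fun V K _ χ a T₀ h₀ => ?_⟩
  obtain ⟨T, l, t1, t2, t3, t4, t5⟩ := hD V (K × Prop) (fun x => (χ x, x 0 ∈ a)) T₀ h₀
  refine ⟨T, l, t1, t2, t3, t4, fun δ d1 d2 d3 => ?_⟩
  obtain ⟨α, hα, e⟩ := t5 δ d1 (fun x hx => Prod.ext (d2 x hx)
    (propext (d3 a List.mem_cons_self _ (hx 0)))) fun s hs => d3 s (List.mem_cons_of_mem _ hs)
  exact ⟨α, ⟨fun x => congrArg Prod.fst (hα.1 x), hα.2⟩,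
    fun x => iff_of_eq (congrArg Prod.snd (hα.1 fun _ => x)), e⟩

end Pool.Agent.Lib.MP_f51cdd_lc.Seu
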