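import Pool.Agent.Lib.MP_f51cdd_lc.At.Gen

/-!
Definability passes to ultrapowers; assembly.
-/

namespace Pool.Agent.Lib.MP_f51cdd_lc.Seu

open Function RelAlg Filter

variable {ι B : Type} {𝒰 : Ultrafilter ι} [BooleanAlgebra B]

theorem UP.ev_isAtom {a : ι → B} (h : IsAtom (UP.mk a : UP 𝒰 fun _ => B)) :
    ∀ᶠ i in 𝒰, IsAtom (a i) := by
  have : ∀ i, ∃ b, b ≤ a i ∧ (a i ≠ ⊥ → (b = ⊥ ∨ b = a i) → IsAtom (a i)) := fun i => by
    by_cases k : ∀ b < a i, b = ⊥
    · exact ⟨⊥, bot_le, fun k' _ => ⟨k', k⟩⟩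
    · push Not at k
      obtain ⟨b, k1, k2⟩ := k
      exact ⟨b, k1.le, fun _ k => k.elim (absurd · k2) (absurd · k1.ne)⟩
  choose b b1 b2 using this
  filter_upwards [Ultrafilter.eventually_not.2 (mt UP.mk_bot.2 h.1), Ultrafilter.eventually_or.2
    ((h.le_iff.1 (UP.mk_le.2 (.of_forall b1))).imp UP.mk_bot.1 UP.mk_eq.1)] with i using b2 i

variable [RelAlg B] {c : ℕ} {g : Fin c → B}

theorem AtDef.los {p : (ℕ → B) → Prop} (hp : AtDef g p) :
    ∃ q, AtDef (fun j => (UP.mk fun _ => g j : UP 𝒰 fun _ => B)) q ∧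
      ∀ v : ι → ℕ → B, q (fun j => UP.mk fun k => v k j) ↔ ∀ᶠ k in 𝒰, p (v k) := by
  induction hp with
  | eq i j => exact ⟨_, .eq i j, fun _ => UP.mk_eq⟩
  | comp i j k => exact ⟨_, .comp i j k, fun _ => Iff.rfl⟩
  | conv i j => exact ⟨_, .conv i j, fun _ => Iff.rfl⟩
  | ident i => exact ⟨_, .ident i, fun _ => Iff.rfl⟩
  | atom i a ha => exact ⟨_, .atom i _ (UP.isAtom (.of_forall fun _ => ha)), fun _ => UP.mk_eq⟩
  | pred i j => exact ⟨_, .pred i j, fun _ => Iff.rfl⟩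
  | not _ ih =>
    obtain ⟨q, h1, h2⟩ := ih
    exact ⟨_, h1.not, fun v => (not_congr (h2 v)).trans Ultrafilter.eventually_not.symm⟩
  | or _ _ ih ih' =>
    obtain ⟨q, h1, h2⟩ := ih
    obtain ⟨r, h3, h4⟩ := ih'
    exact ⟨_, h1.or h3, fun v => (or_congr (h2 v) (h4 v)).trans Ultrafilter.eventually_or.symm⟩
  | @ex i p _ ih =>
    obtain ⟨q, h1, h2⟩ := ih
    refine ⟨_, h1.ex i, fun v => ?_⟩
    have key : ∀ x : ι → B, q (update (fun j => UP.mk fun k => v k j) i (UP.mk x)) ↔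
        ∀ᶠ k in 𝒰, p (update (v k) i (x k)) := fun x => by
      rw [← h2]
      refine iff_of_eq (congrArg q (funext fun j => ?_))
      rcases eq_or_ne j i with rfl | e
      · simp only [update_self]
      · simp only [update_of_ne e]
    constructor
    · rintro ⟨x, hx, k⟩
      obtain ⟨x, rfl⟩ := UP.surj x
      exact ((UP.ev_isAtom hx).and ((key x).1 k)).mono fun k h => ⟨_, h⟩
    · intro h
      have : ∀ k, ∃ x, (∃ x, IsAtom x ∧ p (update (v k) i x)) → IsAtom x ∧ p (update (v k) i x) :=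
        fun k => (em _).elim (fun h : ∃ x, IsAtom x ∧ p (update (v k) i x) => h.imp fun _ h _ => h)
          fun h => ⟨⊥, fun h' => absurd h' h⟩
      choose x hx using this
      exact ⟨UP.mk x, UP.isAtom (h.mono fun k h => (hx k h).1),
        (key x).2 (h.mono fun k h => (hx k h).2)⟩

theorem Definable.los {b : B} (h : Definable g b) :
    Definable (fun j => (UP.mk fun _ => g j : UP 𝒰 fun _ => B)) (UP.mk fun _ => b) := by
  obtain ⟨p, hp, e⟩ := h
  obtain ⟨q, h1, h2⟩ := hp.los (𝒰 := 𝒰)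
  refine ⟨q, h1, fun x hx => ?_⟩
  obtain ⟨x, rfl⟩ := UP.surj x
  exact (eventually_congr ((UP.ev_isAtom hx).mono fun k => e (x k))).trans (h2 fun k _ => x k).symm

theorem definable_isRRA (c : ℕ) : ∃ n, ∀ (B : Type) [BooleanAlgebra B] [RelAlg B] [IsAtomic B],
    (∀ φ : Fm n, φ.free = ∅ →
      (∀ (A : Type) [BooleanAlgebra A] [RelAlg A], IsRRA A → Models A φ) → Models B φ) →
    ∀ (g : Fin c → B) (C : Type) [BooleanAlgebra C] [RelAlg C] (e : C → B), Injective e →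
      (∀ a b, e (a ⊔ b) = e a ⊔ e b) → (∀ a, e aᶜ = (e a)ᶜ) →
      (∀ a b, e (RelAlg.comp a b) = RelAlg.comp (e a) (e b)) → (∀ a, e (conv a) = conv (e a)) →
      e ident = ident → (∀ x, Definable g (e x)) → IsRRA C := by
  obtain ⟨n, hn, h⟩ := exists_ai c
  refine ⟨n, fun B _ _ _ hB g C _ _ e h0 h1 h2 h3 h4 h5 hd => ?_⟩
  choose A _ _ α hA hs using exists_near hB
  have hP := peb_ultra (B := fun _ => B) (Ultrafilter.of_le atTop) α _ hs
  have := hP.isAtomic hn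
  obtain ⟨f, G, hG⟩ := h _ _ hP fun j => UP.mk fun _ => g j
  exact hG.isRRA (UP.isRRA hA) (fun x => UP.mk fun _ => e x)
    (fun a b k => h0 (UP.mk_eq.1 k).exists.choose_spec) (fun a b => by rw [h1]; rfl)
    (fun a => by rw [h2]; rfl) (fun a b => by rw [h3]; rfl) (fun a => by rw [h4]; rfl)
    (by rw [h5]; rfl) fun x => (hd x).los

end Pool.Agent.Lib.MP_f51cdd_lc.Seu
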