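import Pool.Agent.Lib.MP_f51cdd_lc.At.LemT

/-!
Back-and-forth systems in which only finite sets can be chosen freely give a back-and-forth
system of finite maps between the two structures.
-/

namespace Pool.Agent.Lib.MP_f51cdd_lc.Seu

open Equiv Function

/-- A system with `m` set pebbles in which the first player only picks finite sets. -/
structure WB (m : ℕ) (V W : Type) where
  R : List (Set V × Set W) → Prop
  nil : R []
  mono : ∀ {p q}, R p → (∀ z ∈ q, z ∈ p) → R q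
  forth : ∀ {p}, R p → p.length < m → ∀ S : Set V, S.Finite → ∃ T, R ((S, T) :: p)
  back : ∀ {p}, R p → p.length < m → ∀ T : Set W, T.Finite → ∃ S, R ((S, T) :: p)
  pal : ∀ {p}, R p → ∀ x, ∃ y, ∀ z ∈ p, (x ∈ z.1 ↔ y ∈ z.2)
  pal' : ∀ {p}, R p → ∀ y, ∃ x, ∀ z ∈ p, (x ∈ z.1 ↔ y ∈ z.2)

variable {m : ℕ} {V W V' W' K : Type}

theorem WB.mem_iff (S : WB m V W) {p : List (Set V × Set W)} (hp : S.R p) {a : V} {b : W}
    (hab : (({a}, {b}) : Set V × Set W) ∈ p) {z : Set V × Set W} (hz : z ∈ p) :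
    a ∈ z.1 ↔ b ∈ z.2 := by
  obtain ⟨y, hy⟩ := S.pal hp a
  have : y = b := (hy _ hab).1 rfl
  exact this ▸ hy z hz

theorem WB.single (S : WB m V W) (hm : 2 ≤ m) {x : V} {T : Set W} (h : S.R [({x}, T)]) :
    ∃ y, T = {y} := by
  obtain ⟨y, hy⟩ := S.pal h x
  have hyT : y ∈ T := (hy _ List.mem_cons_self).1 rfl
  refine ⟨y, Set.eq_singleton_iff_unique_mem.2 ⟨hyT, fun y' hy' => ?_⟩⟩
  obtain ⟨U, hU⟩ := S.back h (by simp; omega) {y} (Set.finite_singleton y)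
  obtain ⟨a, ha⟩ := S.pal' hU y
  obtain ⟨b, hb⟩ := S.pal' hU y'
  simp only [List.mem_cons, List.not_mem_nil, or_false, forall_eq_or_imp, forall_eq,
    Set.mem_singleton_iff] at ha hb
  have h1 : a = x := ha.2.2 hyT
  have h2 : b = x := hb.2.2 hy'
  exact hb.1.1 (by rw [h2, ← h1]; exact ha.1.2 trivial)

theorem WB.finite (S : WB m V W) (hm : 3 ≤ m) {A : Set V} (hA : A.Finite) {B : Set W}
    (h : S.R [(A, B)]) : B.Finite := by
  induction A, hA using Set.Finite.induction_on generalizing B with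
  | empty =>
    refine Set.finite_empty.subset fun y hy => ?_
    obtain ⟨x, hx⟩ := S.pal' h y
    exact (hx _ List.mem_cons_self).2 hy
  | @insert x A _ hA ih =>
    obtain ⟨T, hT⟩ := S.forth h (by simp; omega) {x} (Set.finite_singleton x)
    obtain ⟨y, rfl⟩ := S.single (by omega) (S.mono hT (q := [({x}, T)]) (by simp))
    obtain ⟨U, hU⟩ := S.forth hT (by simp; omega) A hA
    refine ((ih (B := U) (S.mono hU (by simp))).insert y).subset fun w hw => ?_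
    obtain ⟨a, ha⟩ := S.pal' hU w
    simp only [List.mem_cons, List.not_mem_nil, or_false, forall_eq_or_imp, forall_eq,
      Set.mem_singleton_iff, Set.mem_insert_iff] at ha ⊢
    exact (ha.2.2.2 hw).imp ha.2.1.1 ha.1.1

/-- Restriction to a pebbled pair of finite subsets. -/
def WB.rel (S : WB m V W) (p : List (Set V × Set W)) (hp : S.R p) [Finite V'] [Finite W']
    (ι : V' → V) (κ : W' → W) (hι : Injective ι) (hκ : Injective κ)
    (hX : (Set.range ι, Set.range κ) ∈ p) : BF (m - p.length) V' W' where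
  R q := S.R (q.map (fun z => (ι '' z.1, κ '' z.2)) ++ p)
  nil := by simpa using hp
  mono := fun {q q'} h hq => S.mono h fun z hz => by
    rcases List.mem_append.1 hz with hz | hz
    · obtain ⟨w, hw, rfl⟩ := List.mem_map.1 hz
      exact List.mem_append_left _ (List.mem_map_of_mem (hq w hw))
    · exact List.mem_append_right _ hz
  forth := fun {q} h hl A => by
    obtain ⟨T, hT⟩ := S.forth h (by simp; omega) (ι '' A) ((Set.toFinite _).image _)
    have hs : T ⊆ Set.range κ := fun y hy => by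
      obtain ⟨x, hx⟩ := S.pal' hT y
      have h1 : x ∈ ι '' A := (hx _ List.mem_cons_self).2 hy
      exact (hx _ (List.mem_cons_of_mem _ (List.mem_append_right _ hX))).1
        (Set.image_subset_range _ _ h1)
    refine ⟨κ ⁻¹' T, ?_⟩
    simpa [Set.image_preimage_eq_of_subset hs] using hT
  back := fun {q} h hl B => by
    obtain ⟨T, hT⟩ := S.back h (by simp; omega) (κ '' B) ((Set.toFinite _).image _)
    have hs : T ⊆ Set.range ι := fun x hx => by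
      obtain ⟨y, hy⟩ := S.pal hT x
      have h1 : y ∈ κ '' B := (hy _ List.mem_cons_self).1 hx
      exact (hy _ (List.mem_cons_of_mem _ (List.mem_append_right _ hX))).2
        (Set.image_subset_range _ _ h1)
    refine ⟨ι ⁻¹' T, ?_⟩
    simpa [Set.image_preimage_eq_of_subset hs] using hT
  pal := fun {q} h x => by
    obtain ⟨y, hy⟩ := S.pal h (ι x)
    obtain ⟨y', rfl⟩ : y ∈ Set.range κ := (hy _ (List.mem_append_right _ hX)).1 ⟨x, rfl⟩
    refine ⟨y', fun z hz => ?_⟩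
    have := hy _ (List.mem_append_left _ (List.mem_map_of_mem hz))
    simpa [hι.mem_set_image, hκ.mem_set_image] using this
  pal' := fun {q} h y => by
    obtain ⟨x, hx⟩ := S.pal' h (κ y)
    obtain ⟨x', rfl⟩ : x ∈ Set.range ι := (hx _ (List.mem_append_right _ hX)).2 ⟨y, rfl⟩
    refine ⟨x', fun z hz => ?_⟩
    have := hx _ (List.mem_append_left _ (List.mem_map_of_mem hz))
    simpa [hι.mem_set_image, hκ.mem_set_image] using this

theorem WB.forth_list (S : WB m V W) {p : List (Set V × Set W)} (hp : S.R p)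
    (l : List (Set V)) (hl : ∀ s ∈ l, s.Finite) (h : p.length + l.length ≤ m) :
    ∃ l' : List (Set V × Set W), l'.map Prod.fst = l ∧ S.R (l' ++ p) := by
  induction l with
  | nil => exact ⟨[], rfl, hp⟩
  | cons A l ih =>
    simp only [List.length_cons] at h
    obtain ⟨l', h1, h2⟩ := ih (fun s hs => hl s (List.mem_cons_of_mem _ hs)) (by omega)
    have hl' : l'.length = l.length := by rw [← h1, List.length_map]
    obtain ⟨T, hT⟩ := S.forth h2 (by simp; omega) A (hl A List.mem_cons_self)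
    exact ⟨(A, T) :: l', by simp [h1], hT⟩

/-- Two colourings of triples agree on triples pebbled by singletons. -/
def WB.Compat (S : WB m V W) (χ : (Fin 3 → V) → K) (χ' : (Fin 3 → W) → K) : Prop :=
  ∀ p, S.R p → ∀ x y, (∀ i, (({x i}, {y i}) : Set V × Set W) ∈ p) → χ x = χ' y

theorem WB.match {C : ℕ} (hC : TH 3 C) (S : WB m V W) {χ : (Fin 3 → V) → K}
    {χ' : (Fin 3 → W) → K} (hc : S.Compat χ χ') {p : List (Set V × Set W)} (hp : S.R p)
    (hm : p.length + C + 3 ≤ m) {T : Set V} {T' : Set W} (hT : (T, T') ∈ p) (hf : T.Finite) :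
    ∃ F, Match χ χ' T T' p F := by
  have := hf.to_subtype
  have := (S.finite (by omega) hf (S.mono hp (by simpa using hT))).to_subtype
  obtain ⟨f, hf⟩ := hC _ T T' (K × Set (Set V × Set W)) (S.rel p hp Subtype.val Subtype.val
    Subtype.val_injective Subtype.val_injective (by simpa using hT))
    (fun x => (χ fun i => x i, {z | z ∈ p ∧ (x 0 : V) ∈ z.1}))
    (fun y => (χ' fun i => y i, {z | z ∈ p ∧ (y 0 : W) ∈ z.2})) (by omega) (by
      intro q hq x y h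
      have hs : ∀ j, (({(x j : V)}, {(y j : W)}) : Set V × Set W) ∈
          q.map (fun z => (Subtype.val '' z.1, Subtype.val '' z.2)) ++ p := fun j =>
        List.mem_append_left _ (List.mem_map.2 ⟨_, h j, by simp⟩)
      refine Prod.ext (hc _ hq _ _ hs) (Set.ext fun z => ?_)
      exact and_congr_right fun hz => S.mem_iff hq (hs 0) (List.mem_append_right _ hz))
  let F : V → W := extend Subtype.val (fun x => f x) fun x => (S.pal hp x).choose
  have hF : ∀ x : T, F x = f x := fun x => Subtype.val_injective.extend_apply _ _ x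
  refine ⟨F, ⟨fun x hx => ?_, fun a ha b hb e => ?_, fun y hy => ?_⟩, fun x hx => ?_,
    fun z hz x hx => ?_⟩
  · rw [hF ⟨x, hx⟩]; exact (f _).2
  · rw [hF ⟨a, ha⟩, hF ⟨b, hb⟩] at e
    exact congrArg Subtype.val (f.injective (Subtype.ext e))
  · exact ⟨_, (f.symm ⟨y, hy⟩).2, by rw [hF]; simp⟩
  · exact (congrArg χ' (funext fun i => hF ⟨x i, hx i⟩)).trans
      (congrArg Prod.fst (hf fun i => ⟨x i, hx i⟩))
  · have := Set.ext_iff.1 (congrArg Prod.snd (hf fun _ => ⟨x, hx⟩)) z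
    simp only [Set.mem_ofPred_eq, hz, true_and, comp_apply] at this
    rw [hF ⟨x, hx⟩]
    exact this.symm

/-- Holding a position for ever. -/
def WB.shift (S : WB m V W) (p₀ : List (Set V × Set W)) (h₀ : S.R p₀) : WB (m - p₀.length) V W where
  R p := S.R (p ++ p₀)
  nil := h₀
  mono := fun h hq => S.mono h fun z hz => (List.mem_append.1 hz).elim
    (fun k => List.mem_append_left _ (hq z k)) (List.mem_append_right _)
  forth := fun h hl => S.forth h (by simp; omega)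
  back := fun h hl => S.back h (by simp; omega)
  pal := fun h x => (S.pal h x).imp fun _ k z hz => k z (List.mem_append_left _ hz)
  pal' := fun h y => (S.pal' h y).imp fun _ k z hz => k z (List.mem_append_left _ hz)

/-- A back-and-forth system of finite lists of pairs that respect the colourings; every set in
`𝓑` has a partner in `𝓐`. -/
structure PI (χ : (Fin 3 → V) → K) (χ' : (Fin 3 → W) → K) (𝓐 : Set (Set V)) (𝓑 : Set (Set W))
    (G : List (V × W) → Prop) : Prop where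
  nil : G []
  forth : ∀ {l}, G l → ∀ x, ∃ y, G ((x, y) :: l)
  back : ∀ {l}, G l → ∀ y, ∃ x, G ((x, y) :: l)
  col : ∀ {l}, G l → ∀ x y, (∀ i, (x i, y i) ∈ l) → χ x = χ' y
  hold : ∀ {l}, G l → ∀ b ∈ 𝓑, ∃ a ∈ 𝓐, ∀ x, ∃ y, G ((x, y) :: l) ∧ (x ∈ a ↔ y ∈ b)

theorem exists_pi : ∃ C : ℕ, ∀ (m : ℕ) (V W K : Type) [Finite K] (S : WB m V W)
    (χ : (Fin 3 → V) → K) (χ' : (Fin 3 → W) → K) (𝓐 : Set (Set V)) (𝓑 : Set (Set W)), C ≤ m →
    S.Compat χ χ' → (∀ p, S.R p → p.length < m → ∀ b ∈ 𝓑, ∃ a ∈ 𝓐, S.R ((a, b) :: p)) →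
    (∀ a ∈ 𝓐, ∀ a', {x | ¬(x ∈ a' ↔ x ∈ a)}.Finite → a' ∈ 𝓐) → ∃ G, PI χ χ' 𝓐 𝓑 G := by
  obtain ⟨C, hC⟩ := th_exists 1
  obtain ⟨D, hD⟩ := lemTS
  refine ⟨2 * D + C + 5, fun m V W K _ S χ χ' 𝓐 𝓑 hm hc hAd hcl => ?_⟩
  let Wit : Set V → Set W → Set V → Set V → Set W → List (Set V × Set W) → (V → W) → Prop :=
    fun a b T₀ T T' h F => T₀ ⊆ T ∧ T.Finite ∧ (T, T') ∈ h ∧ h.length ≤ D + 1 ∧ S.R h ∧
      RigS χ a T₀ T (h.map Prod.fst) ∧ (a, b) ∈ h ∧ Match χ χ' T T' h F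
  have ext : ∀ p, S.R p → p.length ≤ D + 2 → ∀ a b, (a, b) ∈ p → ∀ T₀ : Set V, T₀.Finite →
      ∃ T T' h F, Wit a b T₀ T T' h F ∧ S.R ((T, T') :: p) ∧ Match χ χ' T T' p F := by
    intro p hp hl a b hab T₀ h₀
    obtain ⟨T, l, t1, t2, t3, t4, t5⟩ := hD V K χ a T₀ h₀
    obtain ⟨h, rfl, h2⟩ := S.forth_list hp l t4 (by omega)
    obtain ⟨⟨_, T'⟩, hT, rfl⟩ := List.mem_map.1 t2
    rw [List.length_map] at t3
    obtain ⟨F, f1, f2, f3⟩ := S.match hC hc h2 (by simp; omega) (List.mem_append_left _ hT)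
      (t4 _ t2)
    have hs : ∀ z ∈ (a, b) :: h, z ∈ h ++ p :=
      List.forall_mem_cons.2 ⟨List.mem_append_right _ hab, fun _ => List.mem_append_left _⟩
    exact ⟨_, T', (a, b) :: h, F, ⟨t1, t4 _ t2, List.mem_cons_of_mem _ hT, Nat.succ_le_succ t3,
      S.mono h2 hs, t5, List.mem_cons_self, f1, f2, fun z hz => f3 z (hs z hz)⟩,
      S.mono h2 (List.forall_mem_cons.2 ⟨List.mem_append_left _ hT,
        fun _ => List.mem_append_right _⟩), f1, f2, fun z hz => f3 z (List.mem_append_right _ hz)⟩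
  have tw : ∀ {a b T₀ T T' h F}, Wit a b T₀ T T' h F → ∀ {T₁ T₁' p F₁}, T ⊆ T₁ →
      S.R ((T₁, T₁') :: p) → (∀ z ∈ h, z ∈ p) → Match χ χ' T₁ T₁' p F₁ →
      ∃ β ∈ autG χ, (∀ x, β x ∈ a ↔ x ∈ a) ∧ ∀ x ∈ T₀, β x ∈ T ∧ F₁ (β x) = F x := by
    rintro a b T₀ T T' h F ⟨w1, -, w3, -, -, w6, -, f1, f2, f3⟩ T₁ T₁' p F₁ hs hR hp ⟨g1, g2, g3⟩
    have hb : Set.BijOn F₁ T T' := ⟨fun x hx => (g3 _ (hp _ w3) x (hs hx)).1 hx,
      g1.injOn.mono hs, fun y hy => by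
        obtain ⟨a, ha⟩ := S.pal' hR y
        obtain ⟨x, hx, rfl⟩ := g1.surjOn ((ha _ List.mem_cons_self).1
          (hs ((ha _ (List.mem_cons_of_mem _ (hp _ w3))).2 hy)))
        exact ⟨x, (g3 _ (hp _ w3) x hx).2 hy, rfl⟩⟩
    have hx : ∀ x, ∃ x', x ∈ T → x' ∈ T ∧ F₁ x' = F x := fun x => by
      by_cases hx : x ∈ T
      · exact (hb.surjOn (f1.mapsTo hx)).imp fun _ h _ => h
      · exact ⟨x, fun h => absurd h hx⟩
    choose δ hδ using hx
    obtain ⟨β, hβ, e₀, e⟩ := w6 δ ⟨fun x hx => (hδ x hx).1, fun a ha b hb e => f1.injOn ha hb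
      (by rw [← (hδ a ha).2, e, (hδ b hb).2]), fun y hy => by
        obtain ⟨x, hx, e⟩ := f1.surjOn (hb.mapsTo hy)
        exact ⟨x, hx, hb.injOn (hδ x hx).1 hy ((hδ x hx).2.trans e)⟩⟩ (fun x hx => by
        rw [← g2 (δ ∘ x) fun i => hs (hδ _ (hx i)).1, ← f2 x hx]
        exact congrArg χ' (funext fun i => (hδ _ (hx i)).2)) fun s hs' x hx => by
        obtain ⟨z, hz, rfl⟩ := List.mem_map.1 hs'
        rw [g3 z (hp z hz) _ (hs (hδ x hx).1), (hδ x hx).2, f3 z hz x hx]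
    exact ⟨β, hβ, e₀, fun x hx => e x hx ▸ hδ x (w1 hx)⟩
  let G : List (V × W) → Prop := fun l => ∃ α ∈ autG χ, ∃ a b T₀ T T' h F,
    Wit a b T₀ T T' h F ∧ ∀ z ∈ l, α z.1 ∈ T₀ ∧ z.2 = F (α z.1)
  have fo : ∀ {l : List (V × W)}, ∀ α ∈ autG χ, ∀ {a b T₀ T T' h F}, Wit a b T₀ T T' h F →
      (∀ z ∈ l, α z.1 ∈ T₀ ∧ z.2 = F (α z.1)) →
      ∀ v, ∃ y, G ((v, y) :: l) ∧ (α v ∈ a ↔ y ∈ b) := by
    intro l α hα a b T₀ T T' h F w hl v
    have := w.2.1.to_subtype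
    have := (w.2.1.subset w.1).to_subtype
    have hb : ∀ φ : T₀ → T, ∃ β ∈ autG χ, (∀ x, β x ∈ a ↔ x ∈ a) ∧ ((∃ β ∈ autG χ,
        (∀ x, β x ∈ a ↔ x ∈ a) ∧ ∀ x : T₀, β x = φ x) → ∀ x : T₀, β x = φ x) := fun φ => by
      by_cases h : ∃ β ∈ autG χ, (∀ x, β x ∈ a ↔ x ∈ a) ∧ ∀ x : T₀, β x = φ x
      · exact h.imp fun _ h => ⟨h.1, h.2.1, fun _ => h.2.2⟩
      · exact ⟨1, one_mem _, fun _ => Iff.rfl, fun h' => absurd h' h⟩
    choose B b1 b0 b2 using hb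
    obtain ⟨T₁, T₁', h₁, F₁, w₁, r₁, m₁⟩ := ext h w.2.2.2.2.1 (w.2.2.2.1.trans (Nat.le_succ _))
      a b w.2.2.2.2.2.2.1 (T ∪ Set.range fun φ => B φ (α v)) (w.2.1.union (Set.finite_range _))
    obtain ⟨β, hβ, e₀, e⟩ := tw w (Set.subset_union_left.trans w₁.1) r₁ (fun _ h => h) m₁
    have e' := b2 (fun x => ⟨β x, (e x x.2).1⟩) ⟨β, hβ, e₀, fun _ => rfl⟩
    refine ⟨F₁ (B (fun x => ⟨β x, (e x x.2).1⟩) (α v)), ⟨_ * α,
      mul_mem (b1 fun x => ⟨β x, (e x x.2).1⟩) hα, a, b, _, T₁, T₁', h₁, F₁, w₁,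
      List.forall_mem_cons.2 ⟨⟨Or.inr ⟨_, rfl⟩, rfl⟩, fun z hz => ?_⟩⟩,
      (b0 _ _).symm.trans (m₁.2.2 _ w.2.2.2.2.2.2.1 _ (w₁.1 (Or.inr ⟨_, rfl⟩)))⟩
    rw [Perm.mul_apply, e' ⟨_, (hl z hz).1⟩]
    exact ⟨Or.inl (e _ (hl z hz).1).1, (hl z hz).2.trans (e _ (hl z hz).1).2.symm⟩
  refine ⟨G, ?_, ?_, ?_, ?_, ?_⟩
  · obtain ⟨b, hb⟩ := S.forth S.nil (by simp; omega) ∅ Set.finite_empty
    obtain ⟨T, T', h, F, w, -⟩ := ext _ hb (by simp) ∅ b List.mem_cons_self ∅ Set.finite_empty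
    exact ⟨1, one_mem _, ∅, b, ∅, T, T', h, F, w, by simp⟩
  · rintro l ⟨α, hα, a, b, T₀, T, T', h, F, w, hl⟩ v
    exact (fo α hα w hl v).imp fun _ => And.left
  · rintro l ⟨α, hα, a, b, T₀, T, T', h, F, w, hl⟩ y
    obtain ⟨U, hU⟩ := S.back w.2.2.2.2.1 (by have := w.2.2.2.1; omega) {y}
      (Set.finite_singleton y)
    obtain ⟨u, hu⟩ := S.pal' hU y
    obtain ⟨T₁, T₁', h₁, F₁, w₁, r₁, m₁⟩ := ext _ hU (Nat.succ_le_succ w.2.2.2.1) a b
      (List.mem_cons_of_mem _ w.2.2.2.2.2.2.1) (insert u T) (w.2.1.insert u)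
    obtain ⟨β, hβ, -, e⟩ := tw w ((Set.subset_insert _ _).trans w₁.1) r₁
      (fun _ => List.mem_cons_of_mem _) m₁
    refine ⟨(β * α)⁻¹ u, β * α, mul_mem hβ hα, a, b, _, T₁, T₁', h₁, F₁, w₁,
      List.forall_mem_cons.2 ⟨?_, fun z hz => ⟨Or.inr (e _ (hl z hz).1).1,
        (hl z hz).2.trans (e _ (hl z hz).1).2.symm⟩⟩⟩
    simp only [Perm.coe_inv, apply_symm_apply]
    exact ⟨Or.inl rfl, ((m₁.2.2 _ List.mem_cons_self u (w₁.1 (Or.inl rfl))).1
      ((hu _ List.mem_cons_self).2 rfl)).symm⟩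
  · rintro l ⟨α, hα, a, b, T₀, T, T', h, F, w, hl⟩ x y hxy
    rw [← hα.1 x, ← w.2.2.2.2.2.2.2.2.1 (α ∘ x) fun i => w.1 (hl _ (hxy i)).1]
    exact congrArg χ' (funext fun i => (hl _ (hxy i)).2.symm)
  · rintro l ⟨α, hα, a, b, T₀, T, T', h, F, w, hl⟩ b₁ hb₁
    obtain ⟨a₁, ha₁, hU⟩ := hAd h w.2.2.2.2.1 (by have := w.2.2.2.1; omega) b₁ hb₁
    obtain ⟨T₁, T₁', h₁, F₁, w₁, r₁, m₁⟩ := ext _ hU (Nat.succ_le_succ w.2.2.2.1) a₁ b₁
      List.mem_cons_self T w.2.1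
    obtain ⟨β, hβ, -, e⟩ := tw w w₁.1 r₁ (fun _ => List.mem_cons_of_mem _) m₁
    exact ⟨(β * α) ⁻¹' a₁, hcl a₁ ha₁ _ ((mul_mem hβ hα).2.subset fun x hx e => hx (by
      rw [Set.mem_preimage, e])), fo _ (mul_mem hβ hα) w₁ fun z hz => ⟨(e _ (hl z hz).1).1,
        (hl z hz).2.trans (e _ (hl z hz).1).2.symm⟩⟩

end Pool.Agent.Lib.MP_f51cdd_lc.Seu
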